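import Mathlib

/-!
Finitely many automorphisms of a complete linear order: where the highest one changes, two of them
are highest.
-/

set_option autoImplicit false

namespace Pool.Agent.Helper42.PG

variable {ι : Type*} {Ω : Type*}

/-- `x i` is highest at `z`. -/
def Hi [LinearOrder Ω] (x : ι → Ω ≃o Ω) (z : Ω) (i : ι) : Prop := ∀ j, x j z ≤ x i z

/-- `x i` is lowest at `z`. -/
def Lo [LinearOrder Ω] (x : ι → Ω ≃o Ω) (z : Ω) (i : ι) : Prop := ∀ j, x i z ≤ x j z

variable [CompleteLinearOrder Ω] [Finite ι]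

lemma hi_up (x : ι → Ω ≃o Ω) {a : ι} {r q : Ω} (hrq : r ≤ q) (hr : Hi x r a)
    (hq : ¬ Hi x q a) : ∃ p, r ≤ p ∧ p ≤ q ∧ Hi x p a ∧ ∃ b, b ≠ a ∧ Hi x p b := by
  classical
  have : Nonempty ι := ⟨a⟩
  set S : Set Ω := {z | z ≤ q ∧ Hi x z a} with hS
  set p := sSup S with hpS
  have hpq : p ≤ q := sSup_le fun z hz => hz.1
  have hrp : r ≤ p := le_sSup ⟨hrq, hr⟩
  have hp : Hi x p a := by
    intro j
    rw [hpS, OrderIso.map_sSup]
    exact iSup₂_le fun z hz => (hz.2 j).trans ((x a).monotone (le_sSup hz))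
  refine ⟨p, hrp, hpq, hp, ?_⟩
  by_contra hn
  push Not at hn
  have hlt : ∀ j, j ≠ a → x j p < x a p := by
    intro j hj
    by_contra h
    push Not at h
    exact hn j hj fun k => (hp k).trans h
  have hne : p < q := lt_of_le_of_ne hpq (by rintro h; exact hq (h ▸ hp))
  set g : ι → Ω := fun j => if j = a then q else min q ((x j).symm (x a p)) with hg
  have hgp : ∀ j, p < g j := by
    intro j
    simp only [hg]
    split_ifs with h
    · exact hne
    · refine lt_min hne ?_
      rw [← (x j).lt_iff_lt, OrderIso.apply_symm_apply]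
      exact hlt j h
  obtain ⟨m, hm⟩ := Finite.exists_min g
  have hmq : g m ≤ q := by
    have := hm a
    simpa [hg] using this
  have h1 : Hi x (g m) a := by
    intro j
    by_cases h : j = a
    · rw [h]
    · have h2 : g m ≤ (x j).symm (x a p) := by
        have := hm j
        simp only [hg, h, if_false] at this ⊢
        exact this.trans (min_le_right _ _)
      have h3 := (x j).monotone h2
      rw [OrderIso.apply_symm_apply] at h3
      exact h3.trans ((x a).monotone (hgp m).le)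
  exact absurd (le_sSup (show g m ∈ S from ⟨hmq, h1⟩)) (not_le.mpr (hgp m))

lemma hi_down (x : ι → Ω ≃o Ω) {a : ι} {r q : Ω} (hrq : q ≤ r) (hr : Hi x r a)
    (hq : ¬ Hi x q a) : ∃ p, q ≤ p ∧ p ≤ r ∧ Hi x p a ∧ ∃ b, b ≠ a ∧ Hi x p b := by
  classical
  have : Nonempty ι := ⟨a⟩
  set S : Set Ω := {z | q ≤ z ∧ Hi x z a} with hS
  set p := sInf S with hpS
  have hpq : q ≤ p := le_sInf fun z hz => hz.1
  have hrp : p ≤ r := sInf_le ⟨hrq, hr⟩
  have hp : Hi x p a := by
    intro j
    rw [hpS, OrderIso.map_sInf (x a)]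
    exact le_iInf₂ fun z hz => ((x j).monotone (sInf_le hz)).trans (hz.2 j)
  refine ⟨p, hpq, hrp, hp, ?_⟩
  by_contra hn
  push Not at hn
  have hlt : ∀ j, j ≠ a → x j p < x a p := by
    intro j hj
    by_contra h
    push Not at h
    exact hn j hj fun k => (hp k).trans h
  have hne : q < p := lt_of_le_of_ne hpq (by rintro h; exact hq (h ▸ hp))
  set g : ι → Ω := fun j => if j = a then q else max q ((x a).symm (x j p)) with hg
  have hgp : ∀ j, g j < p := by
    intro j
    simp only [hg]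
    split_ifs with h
    · exact hne
    · refine max_lt hne ?_
      rw [← (x a).lt_iff_lt, OrderIso.apply_symm_apply]
      exact hlt j h
  obtain ⟨m, hm⟩ := Finite.exists_max g
  have hmq : q ≤ g m := by
    have := hm a
    simpa [hg] using this
  have h1 : Hi x (g m) a := by
    intro j
    by_cases h : j = a
    · rw [h]
    · have h2 : (x a).symm (x j p) ≤ g m := by
        have := hm j
        simp only [hg, h, if_false] at this ⊢
        exact (le_max_right _ _).trans this
      have h3 := (x a).monotone h2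
      rw [OrderIso.apply_symm_apply] at h3
      exact ((x j).monotone (hgp m).le).trans h3
  exact absurd (sInf_le (show g m ∈ S from ⟨hmq, h1⟩)) (not_le.mpr (hgp m))

lemma lo_up (x : ι → Ω ≃o Ω) {a : ι} {r q : Ω} (hrq : r ≤ q) (hr : Lo x r a)
    (hq : ¬ Lo x q a) : ∃ p, r ≤ p ∧ p ≤ q ∧ Lo x p a ∧ ∃ b, b ≠ a ∧ Lo x p b := by
  obtain ⟨p, h1, h2, h3, b, h4, h5⟩ := hi_down (Ω := Ωᵒᵈ) (fun j => (x j).dual) (a := a)
    (r := OrderDual.toDual r) (q := OrderDual.toDual q) hrq hr hq
  exact ⟨OrderDual.ofDual p, h2, h1, h3, b, h4, h5⟩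

lemma lo_down (x : ι → Ω ≃o Ω) {a : ι} {r q : Ω} (hrq : q ≤ r) (hr : Lo x r a)
    (hq : ¬ Lo x q a) : ∃ p, q ≤ p ∧ p ≤ r ∧ Lo x p a ∧ ∃ b, b ≠ a ∧ Lo x p b := by
  obtain ⟨p, h1, h2, h3, b, h4, h5⟩ := hi_up (Ω := Ωᵒᵈ) (fun j => (x j).dual) (a := a)
    (r := OrderDual.toDual r) (q := OrderDual.toDual q) hrq hr hq
  exact ⟨OrderDual.ofDual p, h2, h1, h3, b, h4, h5⟩

end Pool.Agent.Helper42.PG
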