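import Mathlib
import Pool.Agent.Helper31.TRI.Defs

/-!
Link diagrams with crossings of both signs: alternating diagrams, a polygon and triangles of which
are filled with alternating diagrams of the opposite sign.
-/

set_option autoImplicit false

namespace Pool.Agent.Helper42.PG

open Pool.Agent.Helper42.Th
open Pool.Agent.Helper31.TRI (nxt)

variable {E : Type}

/-- `d` can be reached from `c` through vertices with darts in `U`, without passing a leg; `A` is
the set of all legs. -/
inductive Way (Γ : CMap E) (A U : Set E) (c : E) : E → Prop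
  | start (h : c ∈ U) : Way Γ A U c c
  | rot (d : E) (h : Way Γ A U c d) : Way Γ A U c (Γ.rot d)
  | pass (d : E) (h : Way Γ A U c d) (h1 : d ∉ A) (h2 : Γ.flip d ∉ A) (h3 : Γ.flip d ∈ U) :
      Way Γ A U c (Γ.flip d)

/-- The dart `d` starts at a vertex inside the region into which the leg `e` leads. -/
def In (Γ : CMap E) (A : Set E) (e d : E) : Prop := Way Γ A Set.univ (Γ.flip e) d

/-- `A` is the set of the legs, `T` is the set of those which lead into triangles, `s d` says
whether the edge of `d` is positive, and `r` is the level of a leg.  All edges at a vertex have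
the same sign, except that the legs which start there have the opposite sign; two legs are not
neighbours, also not with one edge between them.  The legs in `T` form triples: `e`, `nxt e` and
`nxt (nxt e)` start at the vertices of a triangle with the edges `rot e`, `rot (nxt e)`,
`rot (nxt (nxt e))`, and they are the only legs which join the inside of the triangle with the
outside; the legs which start inside are again in `T`, and have a smaller level. -/
structure Net (Γ : CMap E) (s : E → Bool) (A T : Set E) (r : E → ℕ) : Prop where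
  sub : ∀ e ∈ T, e ∈ A
  flip : ∀ d, s (Γ.flip d) = s d
  rot : ∀ d, s (Γ.rot d) = s d ↔ d ∉ A ∧ Γ.rot d ∉ A
  apart : ∀ e ∈ A, Γ.rot e ∉ A ∧ Γ.rot (Γ.rot e) ∉ A ∧ Γ.flip e ∉ A
  tri : ∀ e ∈ T, nxt Γ e ∈ T ∧ nxt Γ (nxt Γ (nxt Γ e)) = e
  inner : ∀ e ∈ T, ∀ d, In Γ A e d → Γ.flip d ∈ A →
    Γ.flip d = e ∨ Γ.flip d = nxt Γ e ∨ Γ.flip d = nxt Γ (nxt Γ e)
  level : ∀ e ∈ T, ∀ d ∈ A, In Γ A e d → d ∈ T ∧ r d < r e

/-- The chords which join `a` with `k` and `b` with `l` cross, in a circle on which the indices
lie in their cyclic order. -/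
def Alt {m : ℕ} (a k b l : ZMod m) : Prop :=
  ¬ ((b - a).val < (k - a).val ↔ (l - a).val < (k - a).val)

/-- The legs which do not lead into triangles are `b 0`, ..., `b (m - 1)`; they start at the
vertices of a polygon with the positive edges `rot (b i)`, are negative, and lead into a connected
tangle inside of the polygon, which is joined with the outside by these legs only, and in which
all legs lead into triangles.  The vertices of the polygon are different.  Disjoint ways in the
tangle never join the ends of crossing pairs of legs; this holds for all diagrams in the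
plane. -/
structure Gon {m : ℕ} (Γ : CMap E) (s : E → Bool) (A T : Set E) (b : ZMod m → E) : Prop where
  mem : ∀ i, b i ∈ A ∧ b i ∉ T
  legs : ∀ e ∈ A, e ∉ T → ∃ i, b i = e
  next : ∀ i, nxt Γ (b (i + 1)) = b i
  neg : ∀ i, s (b i) = false
  vert : ∀ i j (n : ℕ), (Γ.rot ^ n) (b i) = b j → i = j
  conn : ∀ i j, In Γ A (b i) (Γ.flip (b j))
  inner : ∀ i d, In Γ A (b i) d → (d ∈ A → d ∈ T) ∧ (Γ.flip d ∈ A → ∃ j, Γ.flip d = b j)
  ways : ∀ U V : Set E, (∀ d ∈ U, Γ.rot d ∈ U) → (∀ d ∈ V, Γ.rot d ∈ V) → Disjoint U V →
    ∀ a k c l, Way Γ A U (Γ.flip (b a)) (Γ.flip (b k)) →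
      Way Γ A V (Γ.flip (b c)) (Γ.flip (b l)) → ¬ Alt a k c l

end Pool.Agent.Helper42.PG
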