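import Mathlib
import Pool.Agent.Helper42.PG.Change
import Pool.Agent.Helper42.PG.Defs

/-!
A polygon with four or five vertices which is filled with an alternating tangle of the opposite
sign: what is known about the labels of the vertices and of the ends of the legs forces that all
labels agree at every point.
-/

set_option autoImplicit false

namespace Pool.Agent.Helper42.PG

instance {m : ℕ} (a k b l : ZMod m) : Decidable (Alt a k b l) := by
  unfold Alt
  infer_instance

/-- `x i` is the label of the `i`-th vertex of the polygon, and `x' i` the label of the inner end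
of the leg which starts there. -/
structure Poly {m : ℕ} {Ω : Type*} [LinearOrder Ω] (x x' : ZMod m → Ω ≃o Ω) : Prop where
  hi : ∀ i r q, Hi x r i → x (i - 1) q = x i r → x' i q ≤ x (i + 1) r
  lo : ∀ i r q, Lo x r i → x (i - 1) q = x i r → x (i + 1) r ≤ x' i q
  lt : ∀ z i k, ¬ (∀ j, x j z = x i z) → Hi x z i → x' k z < x i z
  gt : ∀ z i k, ¬ (∀ j, x j z = x i z) → Lo x z i → x i z < x' k z
  asc : ∀ z a, x a z < x' a z → ∃ k, x' k z < x k z ∧ x' a z ≤ x' k z

/-- Ascending and descending ways inside the polygon do not cross. -/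
def Cross {m : ℕ} {Ω : Type*} [LinearOrder Ω] (x x' : ZMod m → Ω ≃o Ω) : Prop :=
  ∀ z a b, x a z < x' a z → x' b z < x b z → x' b z < x' a z →
    ∃ k l, x' k z < x k z ∧ x' a z ≤ x' k z ∧ x l z < x' l z ∧ x' l z ≤ x' b z ∧
      ¬ Alt a k b l

section Basic

variable {m : ℕ} {Ω : Type*} [LinearOrder Ω] {x x' : ZMod m → Ω ≃o Ω}

/-- All vertices of the polygon agree. -/
def Fx (x : ZMod m → Ω ≃o Ω) (z : Ω) : Prop := ∀ i j, x i z = x j z

lemma Poly.lt' (P : Poly x x') {z : Ω} {i : ZMod m} (hz : ¬ Fx x z) (h : Hi x z i)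
    (k : ZMod m) : x' k z < x i z := P.lt z i k (fun h1 => hz fun a b => (h1 a).trans (h1 b).symm) h

lemma Poly.gt' (P : Poly x x') {z : Ω} {i : ZMod m} (hz : ¬ Fx x z) (h : Lo x z i)
    (k : ZMod m) : x i z < x' k z := P.gt z i k (fun h1 => hz fun a b => (h1 a).trans (h1 b).symm) h

/-- The rule `hi`, with the point at which the previous vertex has reached the height. -/
lemma Poly.hi' (P : Poly x x') {r : Ω} {i : ZMod m} (h : Hi x r i) :
    ∃ q, r ≤ q ∧ x (i - 1) q = x i r ∧ x' i q ≤ x (i + 1) r := by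
  obtain ⟨q, hq⟩ := (x (i - 1)).surjective (x i r)
  refine ⟨q, ?_, hq, P.hi i r q h hq⟩
  rw [← (x (i - 1)).le_iff_le, hq]
  exact h _

lemma Poly.lo' (P : Poly x x') {r : Ω} {i : ZMod m} (h : Lo x r i) :
    ∃ q, q ≤ r ∧ x (i - 1) q = x i r ∧ x (i + 1) r ≤ x' i q := by
  obtain ⟨q, hq⟩ := (x (i - 1)).surjective (x i r)
  refine ⟨q, ?_, hq, P.lo i r q h hq⟩
  rw [← (x (i - 1)).le_iff_le, hq]
  exact h _

/-- A highest and a lowest vertex are not the same. -/
lemma Poly.ne (_ : Poly x x') {z : Ω} {i j : ZMod m} (hz : ¬ Fx x z) (h : Hi x z i)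
    (h' : Lo x z j) : j ≠ i := by
  rintro rfl
  exact hz fun a b => (le_antisymm (h a) (h' a)).trans (le_antisymm (h b) (h' b)).symm

/-- A highest and a lowest vertex are not neighbours. -/
lemma Poly.ne_succ (P : Poly x x') {z : Ω} {i j : ZMod m} (hz : ¬ Fx x z) (h : Hi x z i)
    (h' : Lo x z j) : j ≠ i + 1 := by
  rintro rfl
  obtain ⟨q, h1, -, h2⟩ := P.hi' h
  exact absurd (((x' i).monotone h1).trans h2) (not_le.mpr (P.gt' hz h' i))

lemma Poly.ne_pred (P : Poly x x') {z : Ω} {i j : ZMod m} (hz : ¬ Fx x z) (h : Hi x z i)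
    (h' : Lo x z j) : i ≠ j + 1 := by
  rintro rfl
  obtain ⟨q, h1, -, h2⟩ := P.lo' h'
  exact absurd (h2.trans ((x' j).monotone h1)) (not_le.mpr (P.lt' hz h j))

/-- Between the point at which `x i` has a height and the point at which `x j` has this height,
the labels do not agree. -/
lemma not_fx {r q f : Ω} {i j : ZMod m} (hr : ¬ Fx x r) (h : x j q = x i r) (h1 : r ≤ f)
    (h2 : f ≤ q) : ¬ Fx x f := by
  intro hf
  have h3 : x i f ≤ x i r := by
    rw [hf i j, ← h]
    exact (x j).monotone h2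
  have h4 : f ≤ r := (x i).le_iff_le.mp h3
  rw [le_antisymm h4 h1] at hf
  exact hr hf

lemma not_fx' {r q f : Ω} {i j : ZMod m} (hr : ¬ Fx x r) (h : x j q = x i r) (h1 : q ≤ f)
    (h2 : f ≤ r) : ¬ Fx x f := by
  intro hf
  have h3 : x i r ≤ x i f := by
    rw [← h, hf i j]
    exact (x j).monotone h1
  have h4 : r ≤ f := (x i).le_iff_le.mp h3
  rw [le_antisymm h2 h4] at hf
  exact hr hf

lemma exists_hi [NeZero m] (x : ZMod m → Ω ≃o Ω) (z : Ω) : ∃ i, Hi x z i :=
  Finite.exists_max fun j => x j z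

lemma exists_lo [NeZero m] (x : ZMod m → Ω ≃o Ω) (z : Ω) : ∃ i, Lo x z i :=
  Finite.exists_min fun j => x j z

end Basic

section Shift

variable {m : ℕ} {Ω : Type*} [LinearOrder Ω] {x x' : ZMod m → Ω ≃o Ω}

lemma hi_shift (x : ZMod m → Ω ≃o Ω) (c : ZMod m) (z : Ω) (i : ZMod m) :
    Hi (fun j => x (j + c)) z i ↔ Hi x z (i + c) := by
  constructor
  · intro h j
    have := h (j - c)
    simpa using this
  · intro h j
    exact h _

lemma lo_shift (x : ZMod m → Ω ≃o Ω) (c : ZMod m) (z : Ω) (i : ZMod m) :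
    Lo (fun j => x (j + c)) z i ↔ Lo x z (i + c) := by
  constructor
  · intro h j
    have := h (j - c)
    simpa using this
  · intro h j
    exact h _

lemma fx_shift (x : ZMod m → Ω ≃o Ω) (c : ZMod m) (z : Ω) :
    Fx (fun j => x (j + c)) z ↔ Fx x z := by
  constructor
  · intro h i j
    have := h (i - c) (j - c)
    simpa using this
  · intro h i j
    exact h _ _

lemma Poly.shift (P : Poly x x') (c : ZMod m) :
    Poly (fun j => x (j + c)) (fun j => x' (j + c)) := by
  have e1 : ∀ i : ZMod m, i - 1 + c = i + c - 1 := fun i => by ring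
  have e2 : ∀ i : ZMod m, i + 1 + c = i + c + 1 := fun i => by ring
  refine ⟨fun i r q h h1 => ?_, fun i r q h h1 => ?_, fun z i k h h1 => ?_, fun z i k h h1 => ?_,
    fun z a h => ?_⟩
  · rw [hi_shift] at h
    simp only [e1, e2] at h1 ⊢
    exact P.hi _ _ _ h h1
  · rw [lo_shift] at h
    simp only [e1, e2] at h1 ⊢
    exact P.lo _ _ _ h h1
  · rw [hi_shift] at h1
    refine P.lt _ _ _ (fun h2 => h fun j => h2 _) h1
  · rw [lo_shift] at h1
    refine P.gt _ _ _ (fun h2 => h fun j => h2 _) h1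
  · obtain ⟨k, h1, h2⟩ := P.asc z (a + c) h
    exact ⟨k - c, by simpa using h1, by simpa using h2⟩

lemma Cross.shift (C : Cross x x') (c : ZMod m) :
    Cross (fun j => x (j + c)) (fun j => x' (j + c)) := by
  intro z a b h1 h2 h3
  obtain ⟨k, l, h4, h5, h6, h7, h8⟩ := C z (a + c) (b + c) h1 h2 h3
  refine ⟨k - c, l - c, by simpa using h4, by simpa using h5, by simpa using h6,
    by simpa using h7, ?_⟩
  intro h9
  apply h8
  unfold Alt at h9 ⊢
  have e1 : ∀ u : ZMod m, u - c - a = u - (a + c) := fun u => by ring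
  have e2 : b + c - (a + c) = b - a := by ring
  rw [e1, e1] at h9
  rw [e2]
  exact h9

end Shift

section Four

variable {Ω : Type*} [CompleteLinearOrder Ω] {x x' : ZMod 4 → Ω ≃o Ω}

lemma Poly.four_opp (P : Poly x x') {z : Ω} {i j : ZMod 4} (hz : ¬ Fx x z) (h : Hi x z i)
    (h' : Lo x z j) : j = i + 2 := by
  have h1 := P.ne hz h h'
  have h2 := P.ne_succ hz h h'
  have h3 := P.ne_pred hz h h'
  revert h1 h2 h3
  clear h h'
  revert i j
  decide

lemma Poly.four_unique (P : Poly x x') {z : Ω} {i b : ZMod 4} (hz : ¬ Fx x z) (h : Hi x z i)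
    (h' : Hi x z b) : b = i := by
  obtain ⟨j, hj⟩ := exists_lo x z
  have h1 := P.four_opp hz h hj
  have h2 := P.four_opp hz h' hj
  rw [h1] at h2
  exact (add_right_cancel h2).symm

lemma Poly.four_unique' (P : Poly x x') {z : Ω} {j b : ZMod 4} (hz : ¬ Fx x z) (h : Lo x z j)
    (h' : Lo x z b) : b = j := by
  obtain ⟨i, hi⟩ := exists_hi x z
  rw [P.four_opp hz hi h, P.four_opp hz hi h']

lemma Poly.four0 (P : Poly x x') {z : Ω} (hz : ¬ Fx x z) (h : Hi x z 0) : False := by
  obtain ⟨j, hj⟩ := exists_lo x z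
  have hj2 : j = 2 := by
    rw [P.four_opp hz h hj]
    rfl
  subst hj2
  -- the point at which `x 0` has the height of `x 3` at `z`
  obtain ⟨r, hr⟩ := (x 0).surjective (x 3 z)
  have hlt : x 3 z < x 0 z := lt_of_le_of_ne (h 3) fun he => by
    have := P.four_unique hz h (b := 3) (fun k => (h k).trans he.ge)
    exact absurd this (by decide)
  have hrz : r < z := by
    rw [← (x 0).lt_iff_lt, hr]
    exact hlt
  have h0r : Hi x r 0 := by
    by_contra hn
    obtain ⟨p, h1, h2, h3, b, h4, h5⟩ := hi_down x hrz.le h hn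
    have hp := not_fx' (i := 3) (j := 0) hz hr h1 h2
    exact h4 (P.four_unique hp h3 h5)
  have e1 : x' 0 z ≤ x 1 r := P.hi 0 r z h0r (by
    rw [show (0 : ZMod 4) - 1 = 3 by decide]
    exact hr.symm)
  have e2 : x' 0 z < x 1 z := e1.trans_lt ((x 1).lt_iff_lt.mpr hrz)
  -- the point at which `x 2` has the height of `x 1` at `z`
  obtain ⟨s, hs⟩ := (x 2).surjective (x 1 z)
  have hlt' : x 2 z < x 1 z := lt_of_le_of_ne (hj 1) fun he => by
    have := P.four_unique' hz hj (b := 1) (fun k => he.ge.trans (hj k))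
    exact absurd this (by decide)
  have hsz : z < s := by
    rw [← (x 2).lt_iff_lt, hs]
    exact hlt'
  have h2s : Lo x s 2 := by
    by_contra hn
    obtain ⟨p, h1, h2, h3, b, h4, h5⟩ := lo_up x hsz.le hj hn
    have hp := not_fx (i := 1) (j := 2) hz hs h1 h2
    exact h4 (P.four_unique' hp h3 h5)
  have e3 : x 3 s ≤ x' 2 z := P.lo 2 s z h2s (by
    rw [show (2 : ZMod 4) - 1 = 1 by decide]
    exact hs.symm)
  have e4 : x 3 z < x' 2 z := ((x 3).lt_iff_lt.mpr hsz).trans_le e3
  have e5 : x 1 z ≤ x' 2 z := by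
    rw [← hs]
    exact (h2s 3).trans e3
  obtain ⟨k, h1, h2⟩ := P.asc z 2 (P.gt' hz hj 2)
  have hk : ∀ k : ZMod 4, k = 0 ∨ k = 1 ∨ k = 2 ∨ k = 3 := by decide
  rcases hk k with rfl | rfl | rfl | rfl
  · exact absurd (e5.trans h2) (not_le.mpr e2)
  · exact absurd (e5.trans h2) (not_le.mpr h1)
  · exact absurd h1 (not_lt.mpr ((hj 1).trans e5))
  · exact absurd (h2.trans h1.le) (not_le.mpr e4)

/-- A filled quadrilateral. -/
theorem Poly.four (P : Poly x x') (z : Ω) : Fx x z := by
  by_contra hz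
  obtain ⟨i, hi⟩ := exists_hi x z
  refine (P.shift i).four0 (z := z) (fun h => hz ((fx_shift x i z).mp h)) ?_
  rw [hi_shift, zero_add]
  exact hi

end Four

section Five

variable {Ω : Type*} [CompleteLinearOrder Ω] {x x' : ZMod 5 → Ω ≃o Ω}

lemma cases5 : ∀ k : ZMod 5, k = 0 ∨ k = 1 ∨ k = 2 ∨ k = 3 ∨ k = 4 := by decide

lemma Poly.five_opp (P : Poly x x') {z : Ω} {i j : ZMod 5} (hz : ¬ Fx x z) (h : Hi x z i)
    (h' : Lo x z j) : j = i + 2 ∨ j = i + 3 := by
  have h1 := P.ne hz h h'
  have h2 := P.ne_succ hz h h'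
  have h3 := P.ne_pred hz h h'
  revert h1 h2 h3
  clear h h'
  revert i j
  decide

/-- The first step: two neighbouring lowest vertices. -/
lemma Poly.stepA (P : Poly x x') (C : Cross x x') {r : Ω} (hr : ¬ Fx x r) (h : Hi x r 0)
    (h' : Lo x r 3) : ∃ p, ¬ Fx x p ∧ Lo x p 2 ∧ Lo x p 3 ∧ Hi x p 0 := by
  obtain ⟨q, hrq, hq, h0q⟩ := P.hi' h
  rw [show (0 : ZMod 5) - 1 = 4 by decide] at hq
  rw [zero_add] at h0q
  have hne : r ≠ q := by
    rintro rfl
    exact P.ne_pred (i := 4) (j := 3) hr (fun k => (h k).trans hq.ge) h' (by decide)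
  have hlt : r < q := lt_of_le_of_ne hrq hne
  have hS : x 0 r < x 0 q := (x 0).lt_iff_lt.mpr hlt
  have hq0 : ¬ Fx x q := not_fx hr hq hrq le_rfl
  by_cases h3q : Lo x q 3
  · obtain ⟨q0, hq0q, he, h3⟩ := P.lo' h3q
    rw [show (3 : ZMod 5) - 1 = 2 by decide] at he
    rw [show (3 : ZMod 5) + 1 = 4 by decide] at h3
    have h3' : x 4 q ≤ x' 3 q := h3.trans ((x' 3).monotone hq0q)
    have hx3 : x 3 q < x' 3 q := P.gt' hq0 h3q 3
    by_cases hc : x' 0 q < x' 3 q
    · exfalso
      have hx0 : x' 0 q < x 0 q := (h0q.trans (h 1)).trans_lt hS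
      obtain ⟨k, l, h1, h2, h4, h5, h6⟩ := C q 3 0 hx3 hx0 hc
      have hk : k = 1 ∨ k = 2 := by
        rcases cases5 k with rfl | rfl | rfl | rfl | rfl
        · exact absurd hc (not_lt.mpr h2)
        · exact Or.inl rfl
        · exact Or.inr rfl
        · exact absurd hx3 (not_lt.mpr h1.le)
        · exact absurd h1 (not_lt.mpr (h3'.trans h2))
      have hl : l = 2 := by
        rcases cases5 l with rfl | rfl | rfl | rfl | rfl
        · exact absurd hx0 (not_lt.mpr h4.le)
        · exact absurd h4 (not_lt.mpr (h5.trans (h0q.trans ((x 1).monotone hrq))))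
        · rfl
        · exact absurd hc (not_lt.mpr h5)
        · exact absurd h4 (not_lt.mpr (h5.trans (h0q.trans ((h 1).trans hq.ge))))
      subst hl
      rcases hk with rfl | rfl
      · exact h6 (by decide)
      · exact absurd h1 (not_lt.mpr h4.le)
    · push Not at hc
      have h5 : x' 3 q ≤ x' 3 q0 := hc.trans (h0q.trans ((h 1).trans (hq.ge.trans h3)))
      have h6 : q ≤ q0 := (x' 3).le_iff_le.mp h5
      have h7 : q0 = q := le_antisymm hq0q h6
      rw [h7] at he
      have h2q : Lo x q 2 := fun k => he.le.trans (h3q k)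
      refine ⟨q, hq0, h2q, h3q, ?_⟩
      obtain ⟨i, hi⟩ := exists_hi x q
      have h8 := P.five_opp hq0 hi h2q
      have h9 := P.five_opp hq0 hi h3q
      have h10 : i = 0 := by
        revert h8 h9
        clear hi
        revert i
        decide
      rwa [h10] at hi
  · obtain ⟨p, hrp, hpq, h3p, b, hb, hbp⟩ := lo_up x hrq h' h3q
    have hp : ¬ Fx x p := not_fx hr hq hrp hpq
    obtain ⟨i, hi⟩ := exists_hi x p
    have h8 := P.five_opp hp hi h3p
    have h9 := P.five_opp hp hi hbp
    have h10 : (b = 2 ∧ i = 0) ∨ (b = 4 ∧ i = 1) := by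
      rcases h8 with h8 | h8
      · have h11 : i = 1 := by
          clear h9 hi
          revert i
          decide
        subst h11
        right
        clear hi hbp
        revert b
        decide
      · have h11 : i = 0 := by
          clear h9 hi
          revert i
          decide
        subst h11
        left
        clear hi hbp
        revert b
        decide
    rcases h10 with ⟨rfl, rfl⟩ | ⟨rfl, rfl⟩
    · exact ⟨p, hp, hbp, h3p, hi⟩
    · exfalso
      obtain ⟨q0, hq0p, he, h4⟩ := P.lo' hbp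
      rw [show (4 : ZMod 5) + 1 = 0 by decide] at h4
      have h4' : x 0 p ≤ x' 4 p := h4.trans ((x' 4).monotone hq0p)
      have hrp' : r < p := by
        refine lt_of_le_of_ne hrp ?_
        rintro rfl
        exact P.ne_pred (i := 0) (j := 4) hr h hbp (by decide)
      have hx0 : x' 0 p < x 0 p := by
        calc x' 0 p ≤ x' 0 q := (x' 0).monotone hpq
          _ ≤ x 1 r := h0q
          _ ≤ x 0 r := h 1
          _ < x 0 p := (x 0).lt_iff_lt.mpr hrp'
      have hc : x' 0 p < x' 4 p := hx0.trans_le h4'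
      have hx4 : x 4 p < x' 4 p := P.gt' hp hbp 4
      obtain ⟨k, l, h1, h2, h5, h6, h7⟩ := C p 4 0 hx4 hx0 hc
      have hk : k = 1 ∨ k = 2 := by
        rcases cases5 k with rfl | rfl | rfl | rfl | rfl
        · exact absurd hc (not_lt.mpr h2)
        · exact Or.inl rfl
        · exact Or.inr rfl
        · exact absurd h1 (not_lt.mpr (P.gt' hp h3p 3).le)
        · exact absurd h1 (not_lt.mpr hx4.le)
      have hl : l = 2 ∨ l = 3 := by
        rcases cases5 l with rfl | rfl | rfl | rfl | rfl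
        · exact absurd hx0 (not_lt.mpr h5.le)
        · exact absurd h5 (not_lt.mpr (P.lt' hp hi 1).le)
        · exact Or.inl rfl
        · exact Or.inr rfl
        · exact absurd hc (not_lt.mpr h6)
      rcases hk with rfl | rfl <;> rcases hl with rfl | rfl
      · exact h7 (by decide)
      · exact h7 (by decide)
      · exact absurd h1 (not_lt.mpr h5.le)
      · exact h7 (by decide)

/-- The second step: two neighbouring lowest vertices are impossible. -/
lemma Poly.stepB (P : Poly x x') (C : Cross x x') {p : Ω} (hp : ¬ Fx x p) (h2p : Lo x p 2)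
    (h3p : Lo x p 3) (h0p : Hi x p 0) : False := by
  have huniq : ∀ i, Hi x p i → i = 0 := by
    intro i hi
    have h8 := P.five_opp hp hi h2p
    have h9 := P.five_opp hp hi h3p
    revert h8 h9
    clear hi
    revert i
    decide
  obtain ⟨q', hq'p, hq', hT⟩ := P.lo' h2p
  rw [show (2 : ZMod 5) - 1 = 1 by decide] at hq'
  rw [show (2 : ZMod 5) + 1 = 3 by decide] at hT
  have hT3 : x 2 p ≤ x 3 p := h2p 3
  have hT3' : x 3 p ≤ x 2 p := h3p 2
  have hfx : ∀ z, q' ≤ z → z ≤ p → ¬ Fx x z := fun z h1 h2 => not_fx' hp hq' h1 h2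
  -- a point with two highest vertices
  obtain ⟨p1, hq'p1, hp1p, h0p1, b, hb, hbp1⟩ :
      ∃ p1, q' ≤ p1 ∧ p1 ≤ p ∧ Hi x p1 0 ∧ ∃ b, b ≠ 0 ∧ Hi x p1 b := by
    by_cases h0q' : Hi x q' 0
    · refine ⟨q', le_rfl, hq'p, h0q', 4, by decide, ?_⟩
      obtain ⟨q2, hq2, he, h1⟩ := P.hi' h0q'
      rw [show (0 : ZMod 5) - 1 = 4 by decide] at he
      rw [zero_add] at h1
      have h1' : x' 0 q' ≤ x 1 q' := ((x' 0).monotone hq2).trans h1
      by_cases hc : x' 0 q' < x' 2 q'
      · exfalso
        have hlt : q' < p := by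
          refine lt_of_le_of_ne hq'p ?_
          rintro rfl
          exact P.ne_succ (i := 0) (j := 1) hp h0p (fun k => hq'.le.trans (h2p k)) (by decide)
        have hx2 : x 2 q' < x' 2 q' :=
          ((x 2).lt_iff_lt.mpr hlt).trans_le (hT3.trans hT)
        have hx0 : x' 0 q' < x 0 q' := P.lt' (hfx q' le_rfl hq'p) h0q' 0
        obtain ⟨k, l, h3, h4, h5, h6, h7⟩ := C q' 2 0 hx2 hx0 hc
        have hk : k = 4 := by
          rcases cases5 k with rfl | rfl | rfl | rfl | rfl
          · exact absurd hc (not_lt.mpr h4)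
          · exact absurd h3 (not_lt.mpr (hq'.le.trans (hT3.trans (hT.trans h4))))
          · exact absurd h3 (not_lt.mpr hx2.le)
          · exact absurd h3 (not_lt.mpr (((x 3).monotone hq'p).trans (hT.trans h4)))
          · rfl
        subst hk
        have hl : l = 3 := by
          rcases cases5 l with rfl | rfl | rfl | rfl | rfl
          · exact absurd hx0 (not_lt.mpr h5.le)
          · exact absurd h5 (not_lt.mpr (h6.trans h1'))
          · exact absurd hc (not_lt.mpr h6)
          · rfl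
          · exact absurd h3 (not_lt.mpr h5.le)
        subst hl
        exact h7 (by decide)
      · push Not at hc
        have h3 : x' 0 q2 ≤ x' 0 q' :=
          h1.trans (hq'.le.trans (hT3.trans (hT.trans hc)))
        have h4 : q2 ≤ q' := (x' 0).le_iff_le.mp h3
        rw [le_antisymm h4 hq2] at he
        exact fun k => (h0q' k).trans he.ge
    · exact hi_down x hq'p h0p h0q'
  have hp1 : ¬ Fx x p1 := hfx p1 hq'p1 hp1p
  have hlt : p1 < p := by
    refine lt_of_le_of_ne hp1p ?_
    rintro rfl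
    exact hb (huniq b hbp1)
  have hT2 : x 3 p ≤ x' 2 p1 := hT.trans ((x' 2).monotone hq'p1)
  obtain ⟨j, hj⟩ := exists_lo x p1
  have h8 := P.five_opp hp1 h0p1 hj
  have h9 := P.five_opp hp1 hbp1 hj
  have h10 : b = 1 ∨ b = 4 := by
    revert h8 h9 hb
    clear hj hbp1
    revert j b
    decide
  rcases h10 with rfl | rfl
  · obtain ⟨q2, hq2, he, h1⟩ := P.hi' hbp1
    rw [show (1 : ZMod 5) + 1 = 2 by decide] at h1
    have hx2 : x 2 p1 < x' 2 p1 := ((x 2).lt_iff_lt.mpr hlt).trans_le (hT3.trans hT2)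
    have hc : x' 1 p1 < x' 2 p1 := (((x' 1).monotone hq2).trans h1).trans_lt hx2
    have hx1 : x' 1 p1 < x 1 p1 := P.lt' hp1 hbp1 1
    obtain ⟨k, l, h3, h4, h5, h6, h7⟩ := C p1 2 1 hx2 hx1 hc
    have hk : k = 0 ∨ k = 4 := by
      rcases cases5 k with rfl | rfl | rfl | rfl | rfl
      · exact Or.inl rfl
      · exact absurd hc (not_lt.mpr h4)
      · exact absurd h3 (not_lt.mpr hx2.le)
      · exact absurd h3 (not_lt.mpr (((x 3).monotone hp1p).trans (hT2.trans h4)))
      · exact Or.inr rfl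
    have hl : l = 3 ∨ l = 4 := by
      rcases cases5 l with rfl | rfl | rfl | rfl | rfl
      · exact absurd h5 (not_lt.mpr (P.lt' hp1 h0p1 0).le)
      · exact absurd hx1 (not_lt.mpr h5.le)
      · exact absurd hc (not_lt.mpr h6)
      · exact Or.inl rfl
      · exact Or.inr rfl
    rcases hk with rfl | rfl <;> rcases hl with rfl | rfl
    · exact h7 (by decide)
    · exact h7 (by decide)
    · exact h7 (by decide)
    · exact absurd h3 (not_lt.mpr h5.le)
  · obtain ⟨q1, hq1, he, h1⟩ := P.hi' hbp1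
    rw [show (4 : ZMod 5) - 1 = 3 by decide] at he
    rw [show (4 : ZMod 5) + 1 = 0 by decide] at h1
    have hS1 : x 3 p < x 4 p1 := hT2.trans_lt (P.lt' hp1 hbp1 2)
    have hpq1 : p < q1 := by
      rw [← (x 3).lt_iff_lt, he]
      exact hS1
    obtain ⟨q0, hq0, he0, h2⟩ := P.lo' h3p
    rw [show (3 : ZMod 5) + 1 = 4 by decide] at h2
    have h2' : x 4 p ≤ x' 3 p := h2.trans ((x' 3).monotone hq0)
    have hx4 : x' 4 p < x 4 p := by
      calc x' 4 p ≤ x' 4 q1 := (x' 4).monotone hpq1.le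
        _ ≤ x 0 p1 := h1
        _ ≤ x 4 p1 := hbp1 0
        _ < x 4 p := (x 4).lt_iff_lt.mpr hlt
    have hc : x' 4 p < x' 3 p := hx4.trans_le h2'
    have hx3 : x 3 p < x' 3 p := P.gt' hp h3p 3
    obtain ⟨k, l, h3, h4, h5, h6, h7⟩ := C p 3 4 hx3 hx4 hc
    have hk : k = 0 ∨ k = 1 := by
      rcases cases5 k with rfl | rfl | rfl | rfl | rfl
      · exact Or.inl rfl
      · exact Or.inr rfl
      · exact absurd h3 (not_lt.mpr (P.gt' hp h2p 2).le)
      · exact absurd h3 (not_lt.mpr hx3.le)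
      · exact absurd hc (not_lt.mpr h4)
    have hl : l = 1 ∨ l = 2 := by
      rcases cases5 l with rfl | rfl | rfl | rfl | rfl
      · exact absurd h5 (not_lt.mpr (P.lt' hp h0p 0).le)
      · exact Or.inl rfl
      · exact Or.inr rfl
      · exact absurd hc (not_lt.mpr h6)
      · exact absurd hx4 (not_lt.mpr h5.le)
    rcases hk with rfl | rfl <;> rcases hl with rfl | rfl
    · exact h7 (by decide)
    · exact h7 (by decide)
    · exact absurd h3 (not_lt.mpr h5.le)
    · exact h7 (by decide)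

lemma Poly.no_three (P : Poly x x') (C : Cross x x') {z : Ω} {i j : ZMod 5} (hz : ¬ Fx x z)
    (h : Hi x z i) (h' : Lo x z j) : j = i + 2 := by
  rcases P.five_opp hz h h' with h1 | h1
  · exact h1
  · exfalso
    subst h1
    obtain ⟨p, h1, h2, h3, h4⟩ := (P.shift i).stepA (C.shift i) (r := z)
      (fun h => hz ((fx_shift x i z).mp h)) (by
        rw [hi_shift, zero_add]
        exact h) (by
        rw [lo_shift, add_comm]
        exact h')
    exact (P.shift i).stepB (C.shift i) h1 h2 h3 h4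

lemma Poly.five_unique (P : Poly x x') (C : Cross x x') {z : Ω} {i b : ZMod 5}
    (hz : ¬ Fx x z) (h : Hi x z i) (h' : Hi x z b) : b = i := by
  obtain ⟨j, hj⟩ := exists_lo x z
  have h1 := P.no_three C hz h hj
  have h2 := P.no_three C hz h' hj
  rw [h1] at h2
  exact (add_right_cancel h2).symm

lemma Poly.five_unique' (P : Poly x x') (C : Cross x x') {z : Ω} {j b : ZMod 5}
    (hz : ¬ Fx x z) (h : Lo x z j) (h' : Lo x z b) : b = j := by
  obtain ⟨i, hi⟩ := exists_hi x z
  rw [P.no_three C hz hi h, P.no_three C hz hi h']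

lemma Poly.five0 (P : Poly x x') (C : Cross x x') {z : Ω} (hz : ¬ Fx x z) (h : Hi x z 0) :
    False := by
  obtain ⟨j, hj⟩ := exists_lo x z
  have hj2 : j = 2 := by
    rw [P.no_three C hz h hj]
    rfl
  subst hj2
  -- the point at which `x 0` has the height of `x 4` at `z`
  obtain ⟨r, hr⟩ := (x 0).surjective (x 4 z)
  have hlt : x 4 z < x 0 z := lt_of_le_of_ne (h 4) fun he => by
    have := P.five_unique C hz h (b := 4) (fun k => (h k).trans he.ge)
    exact absurd this (by decide)
  have hrz : r < z := by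
    rw [← (x 0).lt_iff_lt, hr]
    exact hlt
  have h0r : Hi x r 0 := by
    by_contra hn
    obtain ⟨p, h1, h2, h3, b, h4, h5⟩ := hi_down x hrz.le h hn
    have hp := not_fx' (i := 4) (j := 0) hz hr h1 h2
    exact h4 (P.five_unique C hp h3 h5)
  have e1 : x' 0 z ≤ x 1 r := P.hi 0 r z h0r (by
    rw [show (0 : ZMod 5) - 1 = 4 by decide]
    exact hr.symm)
  have e2 : x' 0 z < x 1 z := e1.trans_lt ((x 1).lt_iff_lt.mpr hrz)
  have e2' : x' 0 z ≤ x 4 z := e1.trans ((h0r 1).trans hr.le)
  -- the point at which `x 2` has the height of `x 1` at `z`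
  obtain ⟨s, hs⟩ := (x 2).surjective (x 1 z)
  have hlt' : x 2 z < x 1 z := lt_of_le_of_ne (hj 1) fun he => by
    have := P.five_unique' C hz hj (b := 1) (fun k => he.ge.trans (hj k))
    exact absurd this (by decide)
  have hsz : z < s := by
    rw [← (x 2).lt_iff_lt, hs]
    exact hlt'
  have h2s : Lo x s 2 := by
    by_contra hn
    obtain ⟨p, h1, h2, h3, b, h4, h5⟩ := lo_up x hsz.le hj hn
    have hp := not_fx (i := 1) (j := 2) hz hs h1 h2
    exact h4 (P.five_unique' C hp h3 h5)
  have e3 : x 3 s ≤ x' 2 z := P.lo 2 s z h2s (by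
    rw [show (2 : ZMod 5) - 1 = 1 by decide]
    exact hs.symm)
  have e4 : x 3 z < x' 2 z := ((x 3).lt_iff_lt.mpr hsz).trans_le e3
  have e5 : x 1 z ≤ x' 2 z := by
    rw [← hs]
    exact (h2s 3).trans e3
  have hx2 := P.gt' hz hj 2
  have hx0 := P.lt' hz h 0
  have hc : x' 0 z < x' 2 z := e2.trans_le e5
  obtain ⟨k, l, h1, h2, h3, h4, h5⟩ := C z 2 0 hx2 hx0 hc
  have hk : k = 4 := by
    rcases cases5 k with rfl | rfl | rfl | rfl | rfl
    · exact absurd hc (not_lt.mpr h2)
    · exact absurd h1 (not_lt.mpr (e5.trans h2))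
    · exact absurd h1 (not_lt.mpr hx2.le)
    · exact absurd h1 (not_lt.mpr (e4.le.trans h2))
    · rfl
  subst hk
  have hl : l = 3 := by
    rcases cases5 l with rfl | rfl | rfl | rfl | rfl
    · exact absurd h3 (not_lt.mpr hx0.le)
    · exact absurd h3 (not_lt.mpr (h4.trans e2.le))
    · exact absurd hc (not_lt.mpr h4)
    · rfl
    · exact absurd h3 (not_lt.mpr (h4.trans e2'))
  subst hl
  exact h5 (by decide)

/-- A filled pentagon. -/
theorem Poly.five (P : Poly x x') (C : Cross x x') (z : Ω) : Fx x z := by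
  by_contra hz
  obtain ⟨i, hi⟩ := exists_hi x z
  refine (P.shift i).five0 (C.shift i) (z := z) (fun h => hz ((fx_shift x i z).mp h)) ?_
  rw [hi_shift, zero_add]
  exact hi

end Five

end Pool.Agent.Helper42.PG
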