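import Mathlib
import Pool.Agent.Helper31.TRI.Main
import Pool.Agent.Helper42.PG.Five

/-!
Diagrams with filled triangles and one filled polygon: the maximum principle.  This extends the
files `Pool.Agent.Helper31.TRI.Proof` and `Pool.Agent.Helper31.TRI.Main`.
-/

set_option autoImplicit false

namespace Pool.Agent.Helper42.PG

open Pool.Agent.Helper42.Th
open Pool.Agent.Helper31.TRI (nxt sM Filled top Rules core mn Claim)

variable {E : Type}

variable {Γ : CMap E} {s : E → Bool} {A T : Set E} {r : E → ℕ}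

section Comb

lemma Net.nxt_s (H : Net Γ s A T r) {e : E} (he : e ∈ T) : s (Γ.rot e) = !(s e) ∧
    s (nxt Γ e) = s e := by
  have he' := H.sub e he
  obtain ⟨h1, -, -⟩ := H.apart e he'
  have h2 : s (Γ.rot e) ≠ s e := fun h => ((H.rot e).mp h).1 he'
  have h3 : s (nxt Γ e) ≠ s (Γ.flip (Γ.rot e)) :=
    fun h => ((H.rot _).mp h).2 (H.sub _ (H.tri e he).1)
  rw [H.flip] at h3
  cases h4 : s (Γ.rot e) <;> cases h5 : s e <;> cases h6 : s (nxt Γ e) <;> simp_all

lemma Net.before (H : Net Γ s A T r) {e : E} (he : e ∈ T) :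
    Γ.rot (nxt Γ (nxt Γ e)) = Γ.flip (Γ.rot.symm e) := by
  have h1 : Γ.rot (Γ.flip (Γ.rot (nxt Γ (nxt Γ e)))) = e := (H.tri e he).2
  have h2 : Γ.flip (Γ.rot (nxt Γ (nxt Γ e))) = Γ.rot.symm e := by
    rw [← h1, Equiv.symm_apply_apply]
    rw [h1]
  rw [← h2, Γ.flip_flip]

lemma Net.mn_rot (H : Net Γ s A T r) (d : E) : mn s A (Γ.rot d) ↔ mn s A d := by
  have h1 := H.rot d
  unfold mn
  by_cases h2 : d ∈ A
  · obtain ⟨h3, -, -⟩ := H.apart d h2
    have h4 : s (Γ.rot d) ≠ s d := fun h => (h1.mp h).1 h2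
    cases h5 : s (Γ.rot d) <;> cases h6 : s d <;> simp_all
  · by_cases h3 : Γ.rot d ∈ A
    · have h4 : s (Γ.rot d) ≠ s d := fun h => (h1.mp h).2 h3
      cases h5 : s (Γ.rot d) <;> cases h6 : s d <;> simp_all
    · have h4 : s (Γ.rot d) = s d := h1.mpr ⟨h2, h3⟩
      simp [h2, h3, h4]

/-- The value at `d`, if the regions which are filled are skipped. -/
noncomputable def skip {S : Type*} (Γ : CMap E) (A : Set E) (g : E → S) (d : E) : S := by
  classical
  exact if Γ.rot d ∈ A then g (Γ.flip d) else if d ∈ A then g (Γ.flip (Γ.rot.symm d)) else g d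

lemma Net.skip_leg {S : Type*} (H : Net Γ s A T r) (g : E → S) {e : E} (he : e ∈ A) :
    skip Γ A g e = g (Γ.flip (Γ.rot.symm e)) := by
  simp only [skip, (H.apart e he).1, if_false, he, if_true]

lemma Net.skip_rot {S : Type*} (H : Net Γ s A T r) (g : E → S) {e : E} (he : e ∈ A) :
    skip Γ A g (Γ.rot e) = g (Γ.rot e) := by
  simp only [skip, (H.apart e he).1, (H.apart e he).2.1, if_false]

lemma skip_before {S : Type*} (g : E → S) {d : E} (hd : Γ.rot d ∈ A) :
    skip Γ A g d = g (Γ.flip d) := by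
  simp only [skip, hd, if_true]

lemma skip_edge {S : Type*} (g : E → S) {d : E} (h1 : d ∉ A) (h2 : Γ.rot d ∉ A) :
    skip Γ A g d = g d := by
  simp only [skip, h1, h2, if_false]

/-- The values do not decrease at a vertex, except at a leg which does not lead into a
triangle. -/
lemma Net.skip_le {S : Type*} [LinearOrder S] (H : Net Γ s A T r) (g : E → S)
    (g_rot : ∀ d, g (Γ.flip (Γ.rot d)) = g d) {d : E}
    (hn : Γ.rot d ∉ A → Γ.rot (Γ.rot d) ∉ A → d ∉ A →
      g (Γ.flip (Γ.rot d)) ≤ g (Γ.rot d))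
    (hl : d ∈ A → g (Γ.flip (Γ.rot.symm d)) ≤ g (Γ.rot d)) :
    skip Γ A g d ≤ skip Γ A g (Γ.rot d) := by
  by_cases h1 : d ∈ A
  · rw [H.skip_leg g h1, H.skip_rot g h1]
    exact hl h1
  · by_cases h2 : Γ.rot d ∈ A
    · rw [skip_before g h2, H.skip_leg g h2, Equiv.symm_apply_apply]
    · rw [skip_edge g h1 h2]
      by_cases h3 : Γ.rot (Γ.rot d) ∈ A
      · rw [skip_before g h3, g_rot]
      · rw [skip_edge g h2 h3]
        have h4 := hn h2 h3 h1
        rwa [g_rot] at h4

/-- Going around vertices, without entering the filled regions. -/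
lemma Net.vertex [Finite E] {S : Type*} [LinearOrder S] (H : Net Γ s A T r) (W : Set E)
    (hW : ∀ d ∈ W, Γ.rot d ∈ W) (g : E → S) (g_rot : ∀ d, g (Γ.flip (Γ.rot d)) = g d)
    (hn : ∀ d ∈ W, d ∉ A → Γ.rot d ∉ A → Γ.rot.symm d ∉ A → g (Γ.flip d) ≤ g d)
    (hl : ∀ e ∈ W, e ∈ A → g (Γ.flip (Γ.rot.symm e)) ≤ g (Γ.rot e)) :
    (∀ d ∈ W, d ∉ A → Γ.rot d ∉ A → Γ.rot.symm d ∉ A → g (Γ.flip d) = g d) ∧
      (∀ e ∈ W, e ∈ A → g (Γ.rot e) ≤ g (Γ.flip (Γ.rot.symm e))) := by
  have hle : ∀ d ∈ W, skip Γ A g d ≤ skip Γ A g (Γ.rot d) := by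
    intro d hd
    exact H.skip_le g g_rot (fun h1 h2 h3 => hn _ (hW d hd) h1 h2
      (by rwa [Equiv.symm_apply_apply])) (hl d hd)
  have hc := Harm.chain_const Γ (skip Γ A g) W hW hle
  refine ⟨?_, ?_⟩
  · intro d hd h1 h2 h3
    obtain ⟨c, rfl⟩ := Γ.rot.surjective d
    rw [Equiv.symm_apply_apply] at h3
    have hcW : c ∈ W := by
      have hn : ∀ n : ℕ, (Γ.rot ^ n) (Γ.rot c) ∈ W := by
        intro n
        induction n with
        | zero => exact hd
        | succ n ih =>
          rw [pow_succ', Equiv.Perm.mul_apply]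
          exact hW _ ih
      have h4 : 0 < orderOf Γ.rot := orderOf_pos _
      have h5 := hn (orderOf Γ.rot - 1)
      rwa [← Equiv.Perm.mul_apply, ← pow_succ,
        show orderOf Γ.rot - 1 + 1 = orderOf Γ.rot by omega, pow_orderOf_eq_one] at h5
    have h4 := hc c hcW
    rw [skip_edge g h1 h2, skip_edge g h3 h1] at h4
    rw [g_rot, h4]
  · intro e he hA
    have h4 := hc e he
    rw [H.skip_leg g hA, H.skip_rot g hA] at h4
    exact h4.le

end Comb

section Claims

variable {Ω : Type*} [LinearOrder Ω] {X Y : E → Ω ≃o Ω}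

/-- What is inside is not below the vertices of the triangle. -/
theorem claim_of_inner (H : Net Γ s A T r) (R : Rules Γ s A X Y) {e : E} (he : e ∈ T)
    (hin : ∀ q, X (Γ.flip e) q ≤ X e q → X (Γ.flip e) q ≤ X (nxt Γ (nxt Γ e)) q →
      X (Γ.flip e) q ≤ X (nxt Γ e) q → X (Γ.flip e) q = X e q) : Claim Γ s X Y e := by
  obtain ⟨he1, he3⟩ := H.tri e he
  obtain ⟨he2, -⟩ := H.tri _ he1
  obtain ⟨s1, s2⟩ := H.nxt_s he
  obtain ⟨s3, s4⟩ := H.nxt_s he1
  obtain ⟨s5, s6⟩ := H.nxt_s he2
  set b := nxt Γ (nxt Γ e) with hb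
  have e1 : Γ.rot (Γ.flip (Γ.rot b)) = e := he3
  -- the sides
  have hsc := fun z w (hzw : z ≤ w) h => R.side (Γ.rot e) z w ⟨e, H.sub e he, Or.inl rfl⟩ hzw h
  have hsb := fun z w (hzw : z ≤ w) h =>
    R.side (Γ.flip (Γ.rot b)) z w ⟨b, H.sub b he2, Or.inr (by rw [Γ.flip_flip])⟩ hzw h
  have hleg := fun z w (hzw : z ≤ w) h => R.leg e z w (Or.inl (H.sub e he)) hzw h
  have xb : ∀ z, X (Γ.flip (Γ.rot b)) z = X e z := by
    intro z
    rw [← R.x_rot, e1]
  have xc : ∀ z, X (Γ.flip (Γ.rot e)) z = X (nxt Γ e) z := by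
    intro z
    rw [← R.x_rot]
    rfl
  have yb : ∀ z, Y (Γ.flip e) z = Y (Γ.flip (Γ.rot b)) z := by
    intro z
    have := R.y_rot (Γ.flip (Γ.rot b)) z
    rwa [e1] at this
  have yc : ∀ z, Y (Γ.flip (Γ.rot e)) z = Y e z := R.y_rot e
  intro t ht1 ht2
  refine ⟨fun hs => ?_, fun hs => ?_⟩
  · rw [hs] at s1 s2
    rw [s2] at s3 s4
    rw [s4] at s5 s6
    have t1 : s (Γ.flip (Γ.rot e)) = true := (H.flip _).trans s1
    have t2 : s (Γ.flip (Γ.rot b)) = true := (H.flip _).trans s5
    have t3 : s (Γ.flip e) = false := (H.flip _).trans hs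
    have := core (X e) (X b) (X (nxt Γ e)) (X (Γ.flip e)) (Y (Γ.rot b)) (Y (Γ.flip e)) (Y e)
      (Y (Γ.rot e)) ?_ ?_ ?_ hin ht1 ht2
    · exact this
    · intro z w hzw h
      have h1 := hsb z w hzw (by
        rw [Γ.flip_flip, xb, R.x_rot]
        exact h)
      simp only [top, Γ.flip_flip, t2, s5, if_true, Bool.not_false] at h1
      rw [yb]
      exact h1
    · intro z w hzw h
      have h1 := hsc z w hzw (by
        rw [xc, R.x_rot]
        exact h)
      simp only [top, t1, s1, if_true, Bool.not_false] at h1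
      rw [yc] at h1
      exact h1
    · intro z w hzw h
      apply hleg z w hzw
      simp only [top, t3, hs, Γ.flip_flip, if_false, Bool.false_eq_true]
      exact h
  · rw [hs] at s1 s2
    rw [s2] at s3 s4
    rw [s4] at s5 s6
    have t1 : s (Γ.flip (Γ.rot e)) = false := (H.flip _).trans s1
    have t2 : s (Γ.flip (Γ.rot b)) = false := (H.flip _).trans s5
    have t3 : s (Γ.flip e) = true := (H.flip _).trans hs
    have := core (X e) (X (nxt Γ e)) (X b) (X (Γ.flip e)) (Y (Γ.rot e)) (Y e) (Y (Γ.flip e))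
      (Y (Γ.rot b)) ?_ ?_ ?_ (fun q h1 h2 h3 => hin q h1 h3 h2) ht2 ht1
    · exact ⟨this.1, fun h => by
        obtain ⟨h1, h2, h3⟩ := this.2 h
        exact ⟨h2, h1, h3⟩⟩
    · intro z w hzw h
      have h1 := hsc z w hzw (by
        rw [xc, R.x_rot]
        exact h)
      simp only [top, t1, s1, if_false, Γ.flip_flip, Bool.not_true, Bool.false_eq_true] at h1
      rw [yc] at h1
      exact h1
    · intro z w hzw h
      have h1 := hsb z w hzw (by
        rw [Γ.flip_flip, xb, R.x_rot]
        exact h)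
      simp only [top, Γ.flip_flip, t2, s5, if_false, Bool.not_true, Bool.false_eq_true] at h1
      rw [yb]
      exact h1
    · intro z w hzw h
      apply hleg z w hzw
      simp only [top, t3, hs, if_true]
      exact h

/-- The maximum principle, away from the polygon. -/
theorem spread [Finite E] (H : Net Γ s A T r) (R : Rules Γ s A X Y) (z : Ω) (W : Set E)
    (hW : ∀ d, Γ.rot d ∈ W ↔ d ∈ W) (hT : ∀ e ∈ W, e ∈ A → e ∈ T)
    (hcl : ∀ e ∈ W, e ∈ T → Claim Γ s X Y e)
    (h1 : ∀ d ∈ W, d ∉ A → X (Γ.flip d) z ≤ X d z)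
    (h2 : ∀ e ∈ W, e ∈ T → X (nxt Γ e) z ≤ X e z ∧ X (nxt Γ (nxt Γ e)) z ≤ X e z) :
    ∀ d ∈ W, X (Γ.flip d) z = X d z := by
  have hWs : ∀ d ∈ W, Γ.rot.symm d ∈ W := by
    intro d hd
    rw [← hW, Equiv.apply_symm_apply]
    exact hd
  -- vertices with positive edges
  have hp := H.vertex {d | d ∈ W ∧ mn s A d}
    (fun d hd => ⟨(hW d).mpr hd.1, (H.mn_rot d).mpr hd.2⟩) (fun d => Y d z)
    (fun d => R.y_rot d z) (fun d hd ha _ _ => by
      have hs : s d = true := by
        rcases hd.2 with h | h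
        · exact absurd h.1 ha
        · exact h.2
      have h3 := R.pos d z (h1 d hd.1 ha)
      simpa only [top, hs, H.flip, if_true] using h3) (fun e he ha => by
      have hs : s e = false := by
        rcases he.2 with h | h
        · exact h.2
        · exact absurd ha h.1
      have ht := hT e he.1 ha
      rw [← H.before ht]
      exact ((hcl e he.1 ht z (h2 e he.1 ht).2 (h2 e he.1 ht).1).1 hs).1)
  have hm := H.vertex {d | d ∈ W ∧ ¬ mn s A d}
    (fun d hd => ⟨(hW d).mpr hd.1, fun h => hd.2 ((H.mn_rot d).mp h)⟩)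
    (fun d => OrderDual.toDual (Y d z))
    (fun d => congrArg _ (R.y_rot d z)) (fun d hd ha _ _ => by
      have hs : s d = false := by
        by_contra hn
        exact hd.2 (Or.inr ⟨ha, by simpa using hn⟩)
      have h3 := R.pos d z (h1 d hd.1 ha)
      simpa only [top, hs, H.flip, if_false, Γ.flip_flip, Bool.false_eq_true,
        OrderDual.toDual_le_toDual] using h3) (fun e he ha => by
      have hs : s e = true := by
        by_contra hn
        exact he.2 (Or.inl ⟨ha, by simpa using hn⟩)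
      have ht := hT e he.1 ha
      rw [← H.before ht]
      exact ((hcl e he.1 ht z (h2 e he.1 ht).2 (h2 e he.1 ht).1).2 hs).1)
  -- the legs
  have hleg : ∀ e ∈ W, e ∈ A → X (nxt Γ (nxt Γ e)) z = X e z ∧ X (nxt Γ e) z = X e z ∧
      X (Γ.flip e) z = X e z := by
    intro e he ha
    have ht := hT e he ha
    by_cases hmn : mn s A e
    · have hs : s e = false := by
        rcases hmn with h | h
        · exact h.2
        · exact absurd ha h.1
      exact ((hcl e he ht z (h2 e he ht).2 (h2 e he ht).1).1 hs).2 (by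
        rw [H.before ht]
        exact hp.2 e ⟨he, hmn⟩ ha)
    · have hs : s e = true := by
        by_contra hn
        exact hmn (Or.inl ⟨ha, by simpa using hn⟩)
      exact ((hcl e he ht z (h2 e he ht).2 (h2 e he ht).1).2 hs).2 (by
        rw [H.before ht]
        exact OrderDual.toDual_le_toDual.mp (hm.2 e ⟨he, hmn⟩ ha))
  intro d hd
  by_cases ha : d ∈ A
  · exact (hleg d hd ha).2.2
  · by_cases ha1 : Γ.rot d ∈ A
    · obtain ⟨h3, -, -⟩ := hleg _ ((hW d).mpr hd) ha1
      have h4 : X (Γ.rot (nxt Γ (nxt Γ (Γ.rot d)))) z = X (Γ.rot d) z := by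
        rw [R.x_rot, h3]
      rw [H.before (hT _ ((hW d).mpr hd) ha1), Equiv.symm_apply_apply, R.x_rot] at h4
      exact h4
    · by_cases ha2 : Γ.rot.symm d ∈ A
      · obtain ⟨-, h3, -⟩ := hleg _ (hWs d hd) ha2
        obtain ⟨c, rfl⟩ := Γ.rot.surjective d
        rw [Equiv.symm_apply_apply] at h3
        rw [R.x_rot, ← h3, ← R.x_rot]
        rfl
      · apply R.str
        by_cases hmn : mn s A d
        · have hs : s d = true := by
            rcases hmn with h | h
            · exact absurd h.1 ha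
            · exact h.2
          simp only [top, hs, H.flip, if_true]
          exact hp.1 d ⟨hd, hmn⟩ ha ha1 ha2
        · have hs : s d = false := by
            by_contra hn
            exact hmn (Or.inr ⟨ha, by simpa using hn⟩)
          simp only [top, hs, H.flip, if_false, Γ.flip_flip, Bool.false_eq_true]
          exact (OrderDual.toDual.injective (hm.1 d ⟨hd, hmn⟩ ha ha1 ha2)).symm

/-- A way can be gone backwards around a vertex. -/
lemma way_rot [Finite E] {U : Set E} {c d : E} (h : Way Γ A U c (Γ.rot d)) :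
    Way Γ A U c d := by
  have hn : ∀ n : ℕ, Way Γ A U c ((Γ.rot ^ n) (Γ.rot d)) := by
    intro n
    induction n with
    | zero => exact h
    | succ n ih =>
      rw [pow_succ', Equiv.Perm.mul_apply]
      exact Way.rot _ ih
  have h4 : 0 < orderOf Γ.rot := orderOf_pos _
  have h5 := hn (orderOf Γ.rot - 1)
  rwa [← Equiv.Perm.mul_apply, ← pow_succ,
    show orderOf Γ.rot - 1 + 1 = orderOf Γ.rot by omega, pow_orderOf_eq_one] at h5

/-- The maximum over the vertices which can be reached through high vertices is attained at the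
inner end of a leg the outer end of which is higher, or else the values at the first dart and at
its opposite agree. -/
theorem ascend [Finite E] (H : Net Γ s A T r) (R : Rules Γ s A X Y) (z : Ω) (U : Set E)
    (c : E) (hU : ∀ d, d ∈ U ↔ X c z ≤ X d z)
    (hT : ∀ d, Way Γ A U c d → d ∈ A → d ∈ T ∧ Claim Γ s X Y d)
    (hout : ∀ d, Way Γ A U c d → Γ.flip d ∈ A → X (Γ.flip d) z ≤ X d z) :
    X (Γ.flip c) z = X c z := by
  have hcU : c ∈ U := (hU c).mpr le_rfl
  obtain ⟨m, hm, hmax⟩ := Set.exists_max_image {d | Way Γ A U c d} (fun d => X d z)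
    (Set.toFinite _) ⟨_, Way.start hcU⟩
  change Way Γ A U c m at hm
  have hmax' : ∀ d, Way Γ A U c d → X d z ≤ X m z := fun d hd => hmax d hd
  set W : Set E := {d | Way Γ A U c d ∧ X d z = X m z} with hWd
  have hW : ∀ d, Γ.rot d ∈ W ↔ d ∈ W := by
    intro d
    constructor
    · rintro ⟨h4, h5⟩
      exact ⟨way_rot h4, (R.x_rot d z).symm.trans h5⟩
    · rintro ⟨h4, h5⟩
      exact ⟨Way.rot d h4, (R.x_rot d z).trans h5⟩
  have hle : ∀ d, Way Γ A U c d → d ∉ A → X (Γ.flip d) z ≤ X m z := by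
    intro d hd hdA
    by_cases h4 : Γ.flip d ∈ A
    · exact (hout d hd h4).trans (hmax' d hd)
    · rcases le_or_gt (X c z) (X (Γ.flip d) z) with h5 | h5
      · exact hmax' _ (Way.pass d hd hdA h4 ((hU _).mpr h5))
      · exact h5.le.trans (hmax' _ (Way.start hcU))
  have hsp := spread H R z W hW (fun e he ha => (hT e he.1 ha).1)
    (fun e he ht => (hT e he.1 (H.sub e ht)).2)
    (fun d hd ha => by
      rw [hd.2]
      exact hle d hd.1 ha) (fun e he ht => by
      have hr := (H.apart e (H.sub e ht)).1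
      have h4 := hle _ (Way.rot e he.1) hr
      have h5 : Γ.rot.symm e ∉ A := by
        intro h6
        have h7 := (H.apart _ h6).1
        rw [Equiv.apply_symm_apply] at h7
        exact h7 (H.sub e ht)
      have h6 := hle (Γ.rot.symm e) (way_rot (by
        rw [Equiv.apply_symm_apply]
        exact he.1)) h5
      rw [← H.before ht, R.x_rot] at h6
      rw [he.2]
      refine ⟨?_, h6⟩
      rw [← R.x_rot (Γ.flip (Γ.rot e)) z] at h4
      exact h4)
  -- the start is in `W`
  have hall : ∀ d, Way Γ A U c d → c ∉ W → d ∉ W := by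
    intro d hd hn
    induction hd with
    | start _ => exact hn
    | rot d hd ih => exact fun h4 => ih ((hW d).mp h4)
    | pass d hd hd1 hd2 hd3 ih =>
      intro h4
      apply ih
      have h5 := hsp _ h4
      rw [Γ.flip_flip] at h5
      exact ⟨hd, h5.trans h4.2⟩
  have hmem : c ∈ W := by
    by_contra hn
    exact hall m hm hn ⟨hm, rfl⟩
  exact hsp _ hmem

end Claims

lemma in_of_way {U : Set E} {e d : E} (h : Way Γ A U (Γ.flip e) d) : In Γ A e d := by
  induction h with
  | start _ => exact Way.start (Set.mem_univ _)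
  | rot d _ ih => exact Way.rot d ih
  | pass d _ h1 h2 _ ih => exact Way.pass d ih h1 h2 (Set.mem_univ _)

lemma mem_of_way {U : Set E} {c d : E} (hU : ∀ d, d ∈ U → Γ.rot d ∈ U)
    (h : Way Γ A U c d) : d ∈ U := by
  induction h with
  | start h => exact h
  | rot d _ ih => exact hU d ih
  | pass d _ _ _ h _ => exact h

/-- All filled triangles behave like edges. -/
theorem claims [Finite E] (H : Net Γ s A T r) :
    ∀ n : ℕ, ∀ e ∈ T, r e < n → ∀ {Ω : Type*} [LinearOrder Ω] {X Y : E → Ω ≃o Ω},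
      Rules Γ s A X Y → Claim Γ s X Y e := by
  intro n
  induction n with
  | zero => intro e _ h; exact absurd h (Nat.not_lt_zero _)
  | succ n ih =>
    intro e he hr Ω _ X Y R
    refine claim_of_inner H R he fun q h1 h2 h3 => ?_
    have h4 := ascend H R.dual (OrderDual.toDual q) {d | X d q ≤ X (Γ.flip e) q} (Γ.flip e)
      (fun d => Iff.rfl) (fun d hd hA => by
        obtain ⟨h5, h6⟩ := H.level e he d hA (in_of_way hd)
        exact ⟨h5, ih d h5 (by omega) R.dual⟩) (fun d hd hA => by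
        have hdU : X d q ≤ X (Γ.flip e) q := mem_of_way (U := {d | X d q ≤ X (Γ.flip e) q})
          (fun d hd => by
            change X (Γ.rot d) q ≤ _
            rw [R.x_rot]
            exact hd) hd
        change X d q ≤ X (Γ.flip d) q
        rcases H.inner e he d (in_of_way hd) hA with h6 | h6 | h6
        · rw [h6]
          exact hdU.trans h1
        · rw [h6]
          exact hdU.trans h3
        · rw [h6]
          exact hdU.trans h2)
    rw [Γ.flip_flip] at h4
    exact (OrderDual.toDual.injective h4).symm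

lemma Net.claim [Finite E] (H : Net Γ s A T r) {e : E} (he : e ∈ T) {Ω : Type*} [LinearOrder Ω]
    {X Y : E → Ω ≃o Ω} (R : Rules Γ s A X Y) : Claim Γ s X Y e :=
  claims H (r e + 1) e he (Nat.lt_succ_self _) R

end Pool.Agent.Helper42.PG
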