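import Mathlib
import Pool.Agent.Helper42.PG.Net

/-!
The filled polygon of a diagram satisfies the rules of `Pool.Agent.Helper42.PG.Poly`.
-/

set_option autoImplicit false

namespace Pool.Agent.Helper42.PG

open Pool.Agent.Helper42.Th
open Pool.Agent.Helper31.TRI (nxt sM Filled top Rules core mn Claim)

variable {E : Type}

/-- The highest vertex of the polygon, if the other faces there do not decrease. -/
theorem core2 {Ω : Type*} [LinearOrder Ω] (A B C I O₁ Y₁ Y₂ O₂ : Ω ≃o Ω)
    (rb : ∀ z w, z ≤ w → B w = A z → O₁ w ≤ Y₁ z)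
    (rc : ∀ z w, z ≤ w → C w = A z → Y₂ w ≤ O₂ z)
    (leg : ∀ z w, z ≤ w → Y₂ w = Y₁ z → I w ≤ A z)
    {t q : Ω} (hb : B t ≤ A t) (hc : C t ≤ A t) (ho : O₂ t ≤ O₁ t) (hq : C q = A t) :
    I q ≤ B t := by
  obtain ⟨w₀, hw₀⟩ : ∃ w, B w = A t := B.surjective _
  have h0 : t ≤ w₀ := by
    rw [← B.le_iff_le, hw₀]
    exact hb
  have hOY : O₁ t ≤ Y₁ t := (O₁.monotone h0).trans (rb t w₀ h0 hw₀)
  obtain ⟨s, hs⟩ : ∃ s, Y₁ s = O₁ t := Y₁.surjective _
  have hst : s ≤ t := by
    rw [← Y₁.le_iff_le, hs]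
    exact hOY
  have hAB : A s ≤ B t := by
    by_contra hn
    push Not at hn
    obtain ⟨w, hw⟩ : ∃ w, B w = A s := B.surjective _
    have h1 : t < w := by
      rw [← B.lt_iff_lt, hw]
      exact hn
    have h2 := rb s w (hst.trans h1.le) hw
    rw [hs, O₁.le_iff_le] at h2
    exact absurd h1 (not_lt.mpr h2)
  have htq : t ≤ q := by
    rw [← C.le_iff_le, hq]
    exact hc
  have hYO : Y₂ q ≤ Y₁ s := by
    rw [hs]
    exact (rc t q htq hq).trans ho
  obtain ⟨w, hw⟩ : ∃ w, Y₂ w = Y₁ s := Y₂.surjective _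
  have hqw : q ≤ w := by
    rw [← Y₂.le_iff_le, hw]
    exact hYO
  exact (I.monotone hqw).trans ((leg s w (hst.trans (htq.trans hqw)) hw).trans hAB)

variable {Γ : CMap E} {s : E → Bool} {A T : Set E} {r : E → ℕ} {m : ℕ} {b : ZMod m → E}

lemma way_trans {U : Set E} {c d d' : E} (h : Way Γ A Set.univ c d) (h' : Way Γ A U d d') :
    Way Γ A Set.univ c d' := by
  induction h' with
  | start _ => exact h
  | rot d _ ih => exact Way.rot d ih
  | pass d _ h1 h2 _ ih => exact Way.pass d ih h1 h2 (Set.mem_univ _)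

section Gon

variable {Ω : Type*} [LinearOrder Ω] {X Y : E → Ω ≃o Ω}

/-- The maximum over all vertices is attained at the polygon. -/
lemma Gon.glob [Finite E] (K : Gon Γ s A T b) (H : Net Γ s A T r) (R : Rules Γ s A X Y) (z : Ω)
    (i : ZMod m) (hi : Hi (fun j => X (b j)) z i) (d : E) : X d z ≤ X (b i) z := by
  have : Nonempty E := ⟨d⟩
  obtain ⟨n, hn⟩ := Finite.exists_max (fun d => X d z)
  by_cases h : ∃ j, X (b j) z = X n z
  · obtain ⟨j, hj⟩ := h
    exact (hn d).trans (hj.ge.trans (hi j))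
  · exfalso
    push Not at h
    have hsp := spread H R z {d | X d z = X n z} (fun d => by
      change X (Γ.rot d) z = X n z ↔ X d z = X n z
      rw [R.x_rot]) (fun e he ha => by
      by_contra hT
      obtain ⟨j, hj⟩ := K.legs e ha hT
      apply h j
      rw [hj]
      exact he) (fun e _ ht => H.claim ht R)
      (fun d hd _ => (hn _).trans (le_of_eq (Eq.symm hd)))
      (fun d hd _ => ⟨(hn _).trans (le_of_eq (Eq.symm hd)), (hn _).trans (le_of_eq (Eq.symm hd))⟩)
    have huniv := Γ.conn {d | X d z = X n z} ⟨n, rfl⟩ fun d hd => by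
      refine ⟨?_, (hsp d hd).trans hd⟩
      change X (Γ.rot d) z = X n z
      rw [R.x_rot]
      exact hd
    have : b i ∈ {d | X d z = X n z} := by
      rw [huniv]
      trivial
    exact h i this

/-- The vertices inside are not highest. -/
lemma Gon.lt [Finite E] (K : Gon Γ s A T b) (H : Net Γ s A T r) (R : Rules Γ s A X Y) (z : Ω)
    (i k : ZMod m) (hne : ¬ ∀ j, X (b j) z = X (b i) z) (hi : Hi (fun j => X (b j)) z i) :
    X (Γ.flip (b k)) z < X (b i) z := by
  by_contra hlt
  push Not at hlt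
  apply hne
  have hg := K.glob H R z i hi
  have hin : ∀ d, In Γ A (b k) d → X d z = X (b i) z → X (Γ.flip d) z = X d z := by
    intro d hd he
    refine ascend H R z {c | X d z ≤ X c z} d (fun _ => Iff.rfl) (fun c hc hA => ?_)
      (fun c hc hA => ?_)
    · have h1 := (K.inner k c (way_trans hd hc)).1 hA
      exact ⟨h1, H.claim h1 R⟩
    · have hc' : X d z ≤ X c z := mem_of_way (U := {c | X d z ≤ X c z}) (fun c hc => by
        change X d z ≤ X (Γ.rot c) z
        rw [R.x_rot]
        exact hc) hc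
      exact (hg _).trans (he.ge.trans hc')
  have hall : ∀ d, In Γ A (b k) d → X d z = X (b i) z := by
    intro d hd
    induction hd with
    | start _ => exact le_antisymm (hg _) hlt
    | rot d _ ih => exact (R.x_rot d z).trans ih
    | pass d hd _ _ _ ih => exact (hin d hd ih).trans ih
  intro j
  have h1 := hin _ (K.conn k j) (hall _ (K.conn k j))
  rw [Γ.flip_flip] at h1
  exact h1.trans (hall _ (K.conn k j))

/-- From the inner end of a leg the outer end of which is lower, a way upwards leads to the inner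
end of a leg the outer end of which is higher. -/
lemma Gon.asc [Finite E] (K : Gon Γ s A T b) (H : Net Γ s A T r) (R : Rules Γ s A X Y) (z : Ω)
    (a : ZMod m) (ha : X (b a) z < X (Γ.flip (b a)) z) :
    ∃ k, X (Γ.flip (b k)) z < X (b k) z ∧
      Way Γ A {d | X (Γ.flip (b a)) z ≤ X d z} (Γ.flip (b a)) (Γ.flip (b k)) := by
  by_contra hn
  push Not at hn
  have h1 := ascend H R z {d | X (Γ.flip (b a)) z ≤ X d z} (Γ.flip (b a)) (fun _ => Iff.rfl)
    (fun c hc hA => by
      have h1 := (K.inner a c (in_of_way hc)).1 hA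
      exact ⟨h1, H.claim h1 R⟩) (fun c hc hA => by
      obtain ⟨j, hj⟩ := (K.inner a c (in_of_way hc)).2 hA
      have hc' : Γ.flip (b j) = c := by rw [← hj, Γ.flip_flip]
      rw [hj, ← hc']
      by_contra hlt
      push Not at hlt
      exact hn j hlt (hc' ▸ hc))
  rw [Γ.flip_flip] at h1
  exact absurd ha (not_lt.mpr h1.ge)

lemma Gon.bs (K : Gon Γ s A T b) (i : ZMod m) :
    Γ.rot (b (i + 1)) = Γ.flip (Γ.rot.symm (b i)) := by
  have h1 : Γ.rot (Γ.flip (Γ.rot (b (i + 1)))) = b i := K.next i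
  rw [← h1, Equiv.symm_apply_apply, Γ.flip_flip]

/-- At the highest vertex of the polygon, the faces outside increase. -/
lemma Gon.outside [Finite E] (K : Gon Γ s A T b) (H : Net Γ s A T r) (R : Rules Γ s A X Y)
    (z : Ω) (i : ZMod m) (hi : Hi (fun j => X (b j)) z i) :
    Y (Γ.rot (b i)) z ≤ Y (Γ.flip (Γ.rot.symm (b i))) z := by
  have hg := K.glob H R z i hi
  have hX : ∀ n : ℕ, X ((Γ.rot ^ n) (b i)) z = X (b i) z := by
    intro n
    induction n with
    | zero => rfl
    | succ n ih =>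
      rw [pow_succ', Equiv.Perm.mul_apply, R.x_rot]
      exact ih
  have hmn : ∀ n : ℕ, mn s A ((Γ.rot ^ n) (b i)) := by
    intro n
    induction n with
    | zero => exact Or.inl ⟨(K.mem i).1, K.neg i⟩
    | succ n ih =>
      rw [pow_succ', Equiv.Perm.mul_apply]
      exact (H.mn_rot _).mpr ih
  have hstep : ∀ n : ℕ, (Γ.rot ^ n) (b i) ≠ b i →
      skip Γ A (fun d => Y d z) ((Γ.rot ^ n) (b i)) ≤
        skip Γ A (fun d => Y d z) (Γ.rot ((Γ.rot ^ n) (b i))) := by
    intro n hn
    refine H.skip_le (fun d => Y d z) (fun d => R.y_rot d z) (fun h1 h2 h3 => ?_) (fun h1 => ?_)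
    · have h4 := hmn (n + 1)
      rw [pow_succ', Equiv.Perm.mul_apply] at h4
      have hs : s (Γ.rot ((Γ.rot ^ n) (b i))) = true := by
        rcases h4 with h | h
        · exact absurd h.1 h1
        · exact h.2
      have h5 := R.pos (Γ.rot ((Γ.rot ^ n) (b i))) z (by
        rw [R.x_rot, hX n]
        exact hg _)
      simpa only [top, hs, H.flip, if_true] using h5
    · have hT : (Γ.rot ^ n) (b i) ∈ T := by
        by_contra hT
        obtain ⟨j, hj⟩ := K.legs _ h1 hT
        have := K.vert i j n hj.symm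
        rw [← this] at hj
        exact hn hj.symm
      have hs : s ((Γ.rot ^ n) (b i)) = false := by
        rcases hmn n with h | h
        · exact h.2
        · exact absurd h1 h.1
      have h4 := ((H.claim hT R z (by rw [hX n]; exact hg _) (by rw [hX n]; exact hg _)).1 hs).1
      rw [H.before hT] at h4
      exact h4
  have hchain : ∀ n : ℕ,
      skip Γ A (fun d => Y d z) (Γ.rot (b i)) ≤
        skip Γ A (fun d => Y d z) ((Γ.rot ^ (n + 1)) (b i)) ∨
      skip Γ A (fun d => Y d z) (Γ.rot (b i)) ≤ skip Γ A (fun d => Y d z) (b i) := by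
    intro n
    induction n with
    | zero => exact Or.inl le_rfl
    | succ n ih =>
      rcases ih with h | h
      · by_cases he : (Γ.rot ^ (n + 1)) (b i) = b i
        · right
          rwa [he] at h
        · left
          have h1 := hstep (n + 1) he
          rw [pow_succ' _ (n + 1), Equiv.Perm.mul_apply]
          exact h.trans h1
      · exact Or.inr h
  have hfin : skip Γ A (fun d => Y d z) (Γ.rot (b i)) ≤ skip Γ A (fun d => Y d z) (b i) := by
    have h4 : 0 < orderOf Γ.rot := orderOf_pos _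
    rcases hchain (orderOf Γ.rot - 1) with h | h
    · rwa [show orderOf Γ.rot - 1 + 1 = orderOf Γ.rot by omega, pow_orderOf_eq_one] at h
    · exact h
  rw [H.skip_rot _ (K.mem i).1, H.skip_leg _ (K.mem i).1] at hfin
  exact hfin

/-- The rule for the highest vertex. -/
lemma Gon.hi [Finite E] (K : Gon Γ s A T b) (H : Net Γ s A T r) (R : Rules Γ s A X Y)
    (i : ZMod m) (t q : Ω) (hi : Hi (fun j => X (b j)) t i) (hq : X (b (i - 1)) q = X (b i) t) :
    X (Γ.flip (b i)) q ≤ X (b (i + 1)) t := by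
  have hA := (K.mem i).1
  have hs : s (b i) = false := K.neg i
  have hr : Γ.rot (b i) ∉ A := (H.apart _ hA).1
  have s1 : s (Γ.rot (b i)) = true := by
    have : s (Γ.rot (b i)) ≠ s (b i) := fun h => ((H.rot _).mp h).1 hA
    rw [hs] at this
    simpa using this
  have s2 : s (Γ.rot.symm (b i)) = true := by
    have : s (Γ.rot (Γ.rot.symm (b i))) ≠ s (Γ.rot.symm (b i)) := fun h => ((H.rot _).mp h).2 (by
      rwa [Equiv.apply_symm_apply])
    rw [Equiv.apply_symm_apply, hs] at this
    simpa using this.symm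
  have e1 : b (i - 1) = Γ.rot (Γ.flip (Γ.rot (b i))) := by
    have := K.next (i - 1)
    rw [sub_add_cancel] at this
    exact this.symm
  have xc : ∀ z, X (b (i - 1)) z = X (Γ.flip (Γ.rot (b i))) z := by
    intro z
    rw [e1, R.x_rot]
  have xb : ∀ z, X (b (i + 1)) z = X (Γ.flip (Γ.rot.symm (b i))) z := by
    intro z
    rw [← K.bs i, R.x_rot]
  have xa : ∀ z, X (Γ.rot.symm (b i)) z = X (b i) z := by
    intro z
    rw [← R.x_rot, Equiv.apply_symm_apply]
  have y1 : ∀ z, Y (Γ.flip (Γ.rot (b i))) z = Y (b i) z := R.y_rot (b i)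
  have y2 : ∀ z, Y (Γ.flip (b i)) z = Y (Γ.rot.symm (b i)) z := by
    intro z
    have := R.y_rot (Γ.rot.symm (b i)) z
    rwa [Equiv.apply_symm_apply] at this
  have e2 : Γ.rot (b (i + 1)) = Γ.flip (Γ.rot.symm (b i)) := K.bs i
  refine core2 (X (b i)) (X (b (i + 1))) (X (b (i - 1))) (X (Γ.flip (b i)))
    (Y (Γ.flip (Γ.rot.symm (b i)))) (Y (Γ.flip (b i))) (Y (b i)) (Y (Γ.rot (b i)))
    ?_ ?_ ?_ (hi _) (hi _) (K.outside H R t i hi) hq
  · intro z w hzw h
    have h1 := R.side (Γ.rot.symm (b i)) z w ⟨b (i + 1), (K.mem _).1, Or.inr e2⟩ hzw (by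
      rw [← xb, xa]
      exact h)
    simp only [top, H.flip, s2, if_true] at h1
    rw [y2]
    exact h1
  · intro z w hzw h
    have h1 := R.side (Γ.rot (b i)) z w ⟨b i, hA, Or.inl rfl⟩ hzw (by
      rw [← xc, R.x_rot]
      exact h)
    simp only [top, H.flip, s1, if_true] at h1
    rw [y1] at h1
    exact h1
  · intro z w hzw h
    apply R.leg (b i) z w (Or.inl hA) hzw
    simp only [top, H.flip, hs, if_false, Bool.false_eq_true, Γ.flip_flip]
    exact h

/-- The rules for the polygon. -/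
theorem Gon.poly [Finite E] (K : Gon Γ s A T b) (H : Net Γ s A T r) (R : Rules Γ s A X Y) :
    Poly (fun j => X (b j)) (fun j => X (Γ.flip (b j))) := by
  refine ⟨K.hi H R, fun i t q hi hq => ?_, fun z i k hne hi => K.lt H R z i k hne hi,
    fun z i k hne hi => ?_, fun z a ha => ?_⟩
  · exact K.hi H R.dual i (OrderDual.toDual t) (OrderDual.toDual q) hi
      (congrArg OrderDual.toDual hq)
  · exact K.lt H R.dual (OrderDual.toDual z) i k
      (fun h => hne fun j => OrderDual.toDual.injective (h j)) hi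
  · obtain ⟨k, h1, h2⟩ := K.asc H R z a ha
    refine ⟨k, h1, ?_⟩
    exact mem_of_way (U := {d | X (Γ.flip (b a)) z ≤ X d z}) (fun c hc => by
      change X (Γ.flip (b a)) z ≤ X (Γ.rot c) z
      rw [R.x_rot]
      exact hc) h2

theorem Gon.cross [Finite E] (K : Gon Γ s A T b) (H : Net Γ s A T r) (R : Rules Γ s A X Y) :
    Cross (fun j => X (b j)) (fun j => X (Γ.flip (b j))) := by
  intro z a c h1 h2 h3
  obtain ⟨k, h4, h5⟩ := K.asc H R z a h1
  obtain ⟨l, h6, h7⟩ := K.asc H R.dual (OrderDual.toDual z) c h2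
  have hU : ∀ d ∈ {d | X (Γ.flip (b a)) z ≤ X d z},
      Γ.rot d ∈ {d | X (Γ.flip (b a)) z ≤ X d z} := by
    intro d hd
    change X (Γ.flip (b a)) z ≤ X (Γ.rot d) z
    rw [R.x_rot]
    exact hd
  have hV : ∀ d ∈ {d | X d z ≤ X (Γ.flip (b c)) z},
      Γ.rot d ∈ {d | X d z ≤ X (Γ.flip (b c)) z} := by
    intro d hd
    change X (Γ.rot d) z ≤ X (Γ.flip (b c)) z
    rw [R.x_rot]
    exact hd
  have h7' : Way Γ A {d | X d z ≤ X (Γ.flip (b c)) z} (Γ.flip (b c)) (Γ.flip (b l)) := h7
  refine ⟨k, l, h4, mem_of_way hU h5, h6, mem_of_way hV h7', ?_⟩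
  refine K.ways _ _ hU hV ?_ a k c l h5 h7'
  rw [Set.disjoint_left]
  intro d h8 h9
  exact absurd (h3.trans_le h8) (not_lt.mpr h9)

end Gon

/-- At every point, all labels agree. -/
theorem all_eq [Finite E] (K : Gon Γ s A T b) (H : Net Γ s A T r) (hm : m = 4 ∨ m = 5)
    {Ω : Type*} [CompleteLinearOrder Ω] {X Y : E → Ω ≃o Ω} (R : Rules Γ s A X Y) (z : Ω) :
    (∀ c d, X c z = X d z) ∧ ∀ c d, Y c z = Y d z := by
  have hfx : Fx (fun j => X (b j)) z := by
    rcases hm with rfl | rfl
    · exact (K.poly H R).four z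
    · exact (K.poly H R).five (K.cross H R) z
  have hup : ∀ d, X d z ≤ X (b 0) z :=
    K.glob H R z 0 fun j => (hfx j 0).le
  have hdn : ∀ d, X (b 0) z ≤ X d z := fun d =>
    K.glob H R.dual (OrderDual.toDual z) 0 (fun j => (hfx j 0).ge) d
  have hX : ∀ c d, X c z = X d z := fun c d =>
    (le_antisymm (hup c) (hdn c)).trans (le_antisymm (hup d) (hdn d)).symm
  refine ⟨hX, ?_⟩
  have hY : ∀ d, Y (Γ.flip d) z = Y d z := by
    intro d
    have h1 := R.pos d z (hX _ _).le
    have h2 := R.pos (Γ.flip d) z (hX _ _).le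
    rw [Γ.flip_flip] at h2
    have h3 := le_antisymm h1 h2
    unfold top at h3
    rw [H.flip, Γ.flip_flip] at h3
    split_ifs at h3
    · exact h3
    · exact h3.symm
  have huniv' := Γ.conn {d | Y d z = Y (b 0) z} ⟨b 0, rfl⟩ fun d hd => by
    refine ⟨?_, (hY d).trans hd⟩
    change Y (Γ.rot d) z = Y (b 0) z
    rw [← hY, R.y_rot]
    exact hd
  have hYm : ∀ d, Y d z = Y (b 0) z := by
    intro d
    have : d ∈ {d | Y d z = Y (b 0) z} := by
      rw [huniv']
      trivial
    exact this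
  exact fun c d => (hYm c).trans (hYm d).symm

end Pool.Agent.Helper42.PG
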