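import Mathlib
import Pool.Agent.Helper42.PG.Gon

/-!
Diagrams with a filled polygon which has four or five vertices: the fundamental group is not
left-orderable.
-/

set_option autoImplicit false

namespace Pool.Agent.Helper42.PG

open Pool.Agent.Helper42.Th
open Pool.Agent.Helper31.OrderAct
open Pool.Agent.Helper71.Rot
open Pool.Agent.Helper71.Tree
open Pool.Agent.Helper31.TRI (nxt sM Filled top Rules top_sM comm_sM one_rules pos_rules)

variable {E : Type} {Γ : CMap E} {G : Type*} [Group G] {s : E → Bool} {A T : Set E} {r : E → ℕ}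

section

variable {Ω : Type*} [CompleteLinearOrder Ω] (L : Lab G Γ) (ρ : G →* (Ω ≃o Ω)) {P : Set E}
  {F : E → Set G}

/-- The rules for a dart and for the opposite dart. -/
lemma rules_of_filled (hs : ∀ d, s (Γ.flip d) = s d) (h : Filled L s A P F) :
    Rules Γ s A (lx L ρ) (ly L ρ) := by
  -- the values
  have hX : ∀ d z, lx L ρ (Γ.flip d) (ρ (L.D d) z) = lx L ρ d z := X_D L ρ
  have hT : ∀ d z, top Γ s (ly L ρ) (Γ.flip d) (ρ (sM L s d) z) = top Γ s (ly L ρ) d z :=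
    top_sM L ρ hs
  have xle : ∀ d z w, w ≤ ρ (L.D d) z ↔ lx L ρ (Γ.flip d) w ≤ lx L ρ d z := by
    intro d z w
    rw [← hX d z]
    exact (lx L ρ (Γ.flip d)).le_iff_le.symm
  have xge : ∀ d z w, ρ (L.D d) z ≤ w ↔ lx L ρ d z ≤ lx L ρ (Γ.flip d) w := by
    intro d z w
    rw [← hX d z]
    exact (lx L ρ (Γ.flip d)).le_iff_le.symm
  have tle : ∀ d z w, w ≤ ρ (sM L s d) z ↔
      top Γ s (ly L ρ) (Γ.flip d) w ≤ top Γ s (ly L ρ) d z := by
    intro d z w
    rw [← hT d z]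
    exact (top Γ s (ly L ρ) (Γ.flip d)).le_iff_le.symm
  have tge : ∀ d z w, ρ (sM L s d) z ≤ w ↔
      top Γ s (ly L ρ) d z ≤ top Γ s (ly L ρ) (Γ.flip d) w := by
    intro d z w
    rw [← hT d z]
    exact (top Γ s (ly L ρ) (Γ.flip d)).le_iff_le.symm
  -- the three kinds of darts in `P`
  have leg0 : ∀ d ∈ P, d ∈ A ∨ Γ.flip d ∈ A → ∀ z,
      (z ≤ ρ (sM L s d) z → ρ (sM L s d) z ≤ ρ (L.D d) z) ∧
      (ρ (sM L s d) z ≤ z → ρ (L.D d) z ≤ ρ (sM L s d) z) := by
    intro d hd hA z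
    exact one_rules (spec_of_fill ρ (h.leg d hd hA)) (comm_sM L ρ d).symm z
  have side0 : ∀ d ∈ P, (∃ e ∈ A, Γ.rot e = d ∨ Γ.rot e = Γ.flip d) → ∀ z,
      (z ≤ ρ (L.D d) z → ρ (L.D d) z ≤ ρ (sM L s d) z) ∧
      (ρ (L.D d) z ≤ z → ρ (sM L s d) z ≤ ρ (L.D d) z) := by
    intro d hd hA z
    exact one_rules (spec_of_fill ρ (h.side d hd hA)) (comm_sM L ρ d) z
  have all0 : ∀ d ∈ P, ∀ z, (z ≤ ρ (L.D d) z → z ≤ ρ (sM L s d) z) ∧
      (ρ (L.D d) z ≤ z → ρ (sM L s d) z ≤ z) ∧ (ρ (sM L s d) z = z → ρ (L.D d) z = z) := by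
    intro d hd z
    by_cases h1 : d ∈ A ∨ Γ.flip d ∈ A
    · obtain ⟨h2, h3⟩ := leg0 d hd h1 z
      refine ⟨fun h4 => ?_, fun h4 => ?_, fun h4 => le_antisymm ?_ ?_⟩
      · by_contra hn
        push Not at hn
        exact absurd (h4.trans (h3 hn.le)) (not_le.mpr hn)
      · by_contra hn
        push Not at hn
        exact absurd ((h2 hn.le).trans h4) (not_le.mpr hn)
      · exact (h3 h4.le).trans h4.le
      · exact h4.ge.trans (h2 h4.ge)
    · by_cases h2 : ∃ e ∈ A, Γ.rot e = d ∨ Γ.rot e = Γ.flip d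
      · obtain ⟨h3, h4⟩ := side0 d hd h2 z
        refine ⟨fun h5 => h5.trans (h3 h5), fun h5 => (h4 h5).trans h5, fun h5 => ?_⟩
        rcases le_total z (ρ (L.D d) z) with h6 | h6
        · exact le_antisymm ((h3 h6).trans h5.le) h6
        · exact le_antisymm h6 (h5.ge.trans (h4 h6))
      · push Not at h1 h2
        exact pos_rules (spec_of_fill ρ (h.other d hd h1.1 h1.2 h2)) (comm_sM L ρ d) z
  refine ⟨?_, ?_, ?_, ?_, ?_, ?_⟩
  · intro d z
    change ρ (L.x (Γ.rot d)) z = ρ (L.x d) z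
    rw [L.x_rot]
  · intro d z
    change ρ (L.y (Γ.flip (Γ.rot d))) z = ρ (L.y d) z
    rw [L.y_rot]
  · intro d z h1
    rcases h.cover d with hd | hd
    · rw [← tle, ← xle] at *
      exact (all0 d hd z).1 h1
    · have h2 := (all0 _ hd z).2.1 ((xge _ _ _).mpr (by rwa [Γ.flip_flip]))
      rw [tge, Γ.flip_flip] at h2
      exact h2
  · intro d z h1
    rcases h.cover d with hd | hd
    · have h2 := (all0 d hd z).2.2 (le_antisymm ((tge _ _ _).mpr h1.ge) ((tle _ _ _).mpr h1.le))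
      exact le_antisymm ((xle _ _ _).mp h2.ge) ((xge _ _ _).mp h2.le)
    · have h2 := (all0 _ hd z).2.2 (le_antisymm ((tge _ _ _).mpr (by
        rw [Γ.flip_flip]; exact h1.le)) ((tle _ _ _).mpr (by rw [Γ.flip_flip]; exact h1.ge)))
      have h3 := (xle _ _ _).mp h2.ge
      have h4 := (xge _ _ _).mp h2.le
      rw [Γ.flip_flip] at h3 h4
      exact le_antisymm h4 h3
  · intro d z w hA hzw h1
    rcases h.cover d with hd | hd
    · have e1 : ρ (L.D d) z = w := le_antisymm ((xge _ _ _).mpr h1.ge) ((xle _ _ _).mpr h1.le)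
      rw [← tle, ← e1]
      exact (side0 d hd hA z).1 (by rwa [e1])
    · have hA' : ∃ e ∈ A, Γ.rot e = Γ.flip d ∨ Γ.rot e = Γ.flip (Γ.flip d) := by
        obtain ⟨e, he, h2⟩ := hA
        exact ⟨e, he, by rw [Γ.flip_flip]; exact h2.symm⟩
      have e1 : ρ (L.D (Γ.flip d)) w = z := le_antisymm ((xge _ _ _).mpr (by
        rw [Γ.flip_flip]; exact h1.le)) ((xle _ _ _).mpr (by rw [Γ.flip_flip]; exact h1.ge))
      have h2 := (side0 _ hd hA' w).2 (by rwa [e1])
      rw [e1, tge, Γ.flip_flip] at h2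
      exact h2
  · intro d z w hA hzw h1
    rcases h.cover d with hd | hd
    · have e1 : ρ (sM L s d) z = w := le_antisymm ((tge _ _ _).mpr h1.ge) ((tle _ _ _).mpr h1.le)
      rw [← xle, ← e1]
      exact (leg0 d hd hA z).1 (by rwa [e1])
    · have hA' : Γ.flip d ∈ A ∨ Γ.flip (Γ.flip d) ∈ A := by
        rw [Γ.flip_flip]
        exact hA.symm
      have e1 : ρ (sM L s (Γ.flip d)) w = z := le_antisymm ((tge _ _ _).mpr (by
        rw [Γ.flip_flip]; exact h1.le)) ((tle _ _ _).mpr (by rw [Γ.flip_flip]; exact h1.ge))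
      have h2 := (leg0 _ hd hA' w).2 (by rwa [e1])
      rw [e1, xge, Γ.flip_flip] at h2
      exact h2

end

/-- The main theorem. -/
theorem not_leftOrderable [Finite E] {m : ℕ} {b : ZMod m → E} (L : Lab G Γ) (P : Set E)
    (F : E → Set G) (H : Net Γ s A T r) (K : Gon Γ s A T b) (hm : m = 4 ∨ m = 5)
    (hF : Filled L s A P F) (hgen : Subgroup.closure (L.elts ∪ ⋃ d ∈ P, F d) = ⊤) :
    ¬ (Nontrivial G ∧ ∃ _ : LinearOrder G, ∀ f g h : G, g ≤ h → f * g ≤ f * h) := by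
  rintro ⟨hnt, ⟨ho, hmul⟩⟩
  have hall : ∀ z : LowerSet G, ∀ g : G, cutHom hmul g z = z := by
    intro z g
    set ρ := cutHom hmul with hρ
    obtain ⟨hX, hY⟩ := all_eq K H hm (rules_of_filled L ρ H.flip hF) z
    have hX1 : ∀ d, ρ (L.x d) z = z := by
      obtain ⟨c, hc⟩ := L.x_one
      intro d
      have h1 : lx L ρ d z = lx L ρ c z := hX d c
      change ρ (L.x d) z = ρ (L.x c) z at h1
      rw [h1, hc, map_one]
      rfl
    have hY1 : ∀ d, ρ (L.y d) z = z := by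
      obtain ⟨c, hc⟩ := L.y_one
      intro d
      have h1 : ly L ρ d z = ly L ρ c z := hY d c
      change ρ (L.y d) z = ρ (L.y c) z at h1
      rw [h1, hc, map_one]
      rfl
    have hDd : ∀ d, ρ (L.D d) z = z := by
      intro d
      rw [Lab.D, map_mul, map_inv, RelIso.mul_apply, hX1]
      exact inv_fix (hX1 _)
    have hMd : ∀ d, ρ (L.M d) z = z := by
      intro d
      rw [Lab.M, map_mul, map_inv, RelIso.mul_apply, hY1]
      exact inv_fix (hY1 _)
    have hMs : ∀ d, ρ (sM L s d) z = z := by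
      intro d
      unfold sM
      split_ifs
      · exact hMd d
      · rw [map_inv]
        exact inv_fix (hMd d)
    have hg : g ∈ Subgroup.closure (L.elts ∪ ⋃ d ∈ P, F d) := by
      rw [hgen]
      trivial
    induction hg using Subgroup.closure_induction with
    | mem y hy =>
      rcases hy with (⟨d, rfl⟩ | ⟨d, rfl⟩) | hy
      · exact hX1 d
      · exact hY1 d
      · obtain ⟨d, hd⟩ := Set.mem_iUnion.mp hy
        obtain ⟨hd1, hd2⟩ := Set.mem_iUnion.mp hd
        by_cases h1 : d ∈ A ∨ Γ.flip d ∈ A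
        · exact (spec_of_fill ρ (hF.leg d hd1 h1)).fix z (hDd d) (hMs d) _ ⟨y, hd2, rfl⟩
        · by_cases h2 : ∃ e ∈ A, Γ.rot e = d ∨ Γ.rot e = Γ.flip d
          · exact (spec_of_fill ρ (hF.side d hd1 h2)).fix z (hMs d) (hDd d) _ ⟨y, hd2, rfl⟩
          · push Not at h1 h2
            exact (spec_of_fill ρ (hF.other d hd1 h1.1 h1.2 h2)).fix z (hMs d) (hDd d) _
              ⟨y, hd2, rfl⟩
    | one => rw [map_one]; rfl
    | mul a b _ _ ha hb => rw [map_mul, RelIso.mul_apply, hb, ha]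
    | inv a _ ha => rw [map_inv]; exact inv_fix ha
  obtain ⟨x, y, hxy⟩ := exists_pair_ne G
  have key : ∀ x y : G, y ≤ x := by
    intro x y
    have h1 := hall (LowerSet.Iic x) (y * x⁻¹)
    have h2 : y ∈ LowerSet.Iic x := by
      rw [← h1, mem_cutHom]
      simp
    exact h2
  exact hxy (le_antisymm (key y x) (key x y))

end Pool.Agent.Helper42.PG
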